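import Pool.Agent.Q23.HS.One

/-!
# From real numbers to arbitrary commutative rings
-/

set_option autoImplicit false
set_option linter.unusedSectionVars false
set_option linter.unusedVariables false

namespace Pool.Agent.Q23.HS

open Finset Matrix Pool.Agent.Q23.LD

theorem mv_ext {k : ℕ} (P Q : MvPolynomial (Fin k) ℤ)
    (h : ∀ v : Fin k → ℝ, MvPolynomial.eval₂Hom (Int.castRingHom ℝ) v P
      = MvPolynomial.eval₂Hom (Int.castRingHom ℝ) v Q) : P = Q := by
  apply MvPolynomial.map_injective (Int.castRingHom ℝ) Int.cast_injective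
  apply MvPolynomial.funext
  intro v
  rw [MvPolynomial.eval_map, MvPolynomial.eval_map]
  exact h v

theorem det_MM4_ring {p n : ℕ} [Fact p.Prime] (c : ℤ) (hreal : ∀ x y z w : ℝ,
    (MM4 p n x y z w).det = c * (n ^ 2 * w * x - (n * y - 1) * (n * z - 1)))
    {R : Type*} [CommRing R] (x y z w : R) :
    (MM4 p n x y z w).det = (c : R) * ((n : R) ^ 2 * w * x - ((n : R) * y - 1) * ((n : R) * z - 1)) := by
  have hP : (MM4 p n (MvPolynomial.X 0 : MvPolynomial (Fin 4) ℤ) (MvPolynomial.X 1)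
      (MvPolynomial.X 2) (MvPolynomial.X 3)).det = (c : MvPolynomial (Fin 4) ℤ) *
        ((n : MvPolynomial (Fin 4) ℤ) ^ 2 * MvPolynomial.X 3 * MvPolynomial.X 0
        - ((n : MvPolynomial (Fin 4) ℤ) * MvPolynomial.X 1 - 1) *
          ((n : MvPolynomial (Fin 4) ℤ) * MvPolynomial.X 2 - 1)) := by
    apply mv_ext
    intro v
    rw [map_MM4]
    simp only [map_mul, map_sub, map_pow, map_natCast, map_intCast, map_one,
      MvPolynomial.coe_eval₂Hom, MvPolynomial.eval₂_X]
    exact hreal _ _ _ _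
  have h := congrArg (MvPolynomial.eval₂Hom (Int.castRingHom R) ![x, y, z, w]) hP
  rw [map_MM4] at h
  simp only [map_mul, map_sub, map_pow, map_natCast, map_intCast, map_one,
      MvPolynomial.coe_eval₂Hom, MvPolynomial.eval₂_X] at h
  exact h

theorem det_MM4_one {p n : ℕ} [Fact p.Prime] (hp : p = 2 * n + 1) (h1 : ch p (-1) = 1) :
    ∃ m, n = 2 * (m + 1) ∧ ∀ {R : Type*} [CommRing R] (x y z w : R),
      (MM4 p n x y z w).det =
      (-(p : R)) ^ m * ((n : R) ^ 2 * w * x - ((n : R) * y - 1) * ((n : R) * z - 1)) := by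
  obtain ⟨m, hm, hr⟩ := det_MM4_real hp h1
  have hp0 : (0 : ℝ) < p := by exact_mod_cast (Fact.out : p.Prime).pos
  obtain ⟨m', rfl⟩ : ∃ m', m = m' + 1 := by
    rcases m with _ | m
    · have := (Fact.out : p.Prime).two_le
      omega
    · exact ⟨m, rfl⟩
  refine ⟨m', hm, ?_⟩
  intro R _ x y z w
  have h := det_MM4_ring (p := p) (n := n) ((-(p : ℤ)) ^ m') (by
    intro x y z w
    have h2 := hr x y z w
    apply mul_left_cancel₀ hp0.ne'
    rw [h2]
    push_cast
    ring) x y z w
  rw [h]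
  push_cast
  ring

end Pool.Agent.Q23.HS
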