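import Pool.Agent.Q23.HS.Three

/-!
# The mixed sum and its congruence
-/

set_option autoImplicit false
set_option linter.unusedSectionVars false
set_option linter.unusedVariables false

namespace Pool.Agent.Q23.HS

open Finset Matrix
open Pool.Agent.Q23.LD

variable {p : ℕ} [Fact p.Prime]

/-- the symbol on natural numbers -/
noncomputable def ff (p : ℕ) [Fact p.Prime] (i : ℕ) : ℤ := ch p (i : ZMod p)

/-- partial sums -/
noncomputable def GG (p : ℕ) [Fact p.Prime] (m : ℕ) : ℤ := ∑ i ∈ range m, ff p (i + 1)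

lemma HH_eq (n : ℕ) : HH p n = GG p n := by
  rw [HH, GG, ← Fin.sum_univ_eq_sum_range (fun i => ff p (i + 1))]
  apply Finset.sum_congr rfl
  intro j _
  rw [bb, ff, ix]; push_cast; rfl

lemma ff_sq {i : ℕ} (h0 : 0 < i) (hi : i < p) : ff p i * ff p i = 1 := by
  apply ch_sq
  rw [Ne, ZMod.natCast_eq_zero_iff]
  intro h
  have := Nat.le_of_dvd h0 h
  omega

lemma ff_mul (i j : ℕ) : ff p (i * j) = ff p i * ff p j := by
  rw [ff, Nat.cast_mul, ch_mul]; rfl

lemma ff_refl (h4 : p % 4 = 3) {i : ℕ} (hi : i ≤ p) : ff p (p - i) = - ff p i := by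
  rw [ff, Nat.cast_sub hi, ZMod.natCast_self, zero_sub, ch_neg', ch_m1 h4, ff]
  ring

lemma GG_top (h4 : p % 4 = 3) : GG p (p - 1) = 0 := by
  have hp : p ≠ 2 := by omega
  have h1 : ∑ i ∈ range p, ff p i = 0 := by
    have h2 : ∑ i ∈ range p, ff p i = ∑ a : ZMod p, ch p a := by
      apply Finset.sum_bij (fun (i : ℕ) _ => (i : ZMod p))
      · intro a _; simp
      · intro a ha b hb hab
        rw [Finset.mem_range] at ha hb
        have := congrArg ZMod.val hab
        rwa [ZMod.val_natCast_of_lt ha, ZMod.val_natCast_of_lt hb] at this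
      · intro b _
        exact ⟨b.val, by simpa using ZMod.val_lt b, by simp⟩
      · intro a _; rfl
    rw [h2, sum_ch hp]
  have h3 : p = (p - 1) + 1 := by have := (Fact.out : p.Prime).pos; omega
  have h3' : range p = range ((p - 1) + 1) := by rw [← h3]
  rw [h3', Finset.sum_range_succ'] at h1
  have h4 : ff p 0 = 0 := by rw [ff, Nat.cast_zero, ch_zero]
  rw [h4, add_zero] at h1
  exact h1

lemma GG_refl (h4 : p % 4 = 3) {t : ℕ} (ht : t ≤ p - 1) : GG p (p - 1 - t) = GG p t := by
  have h0 := (Fact.out : p.Prime).pos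
  have h1 := GG_top (p := p) h4
  have e : p - 1 = (p - 1 - t) + t := by omega
  rw [GG, e, Finset.sum_range_add] at h1
  have h2 : ∑ i ∈ range t, ff p (p - 1 - t + i + 1) = - GG p t := by
    rw [GG, ← Finset.sum_range_reflect, ← Finset.sum_neg_distrib]
    apply Finset.sum_congr rfl
    intro i hi
    rw [mem_range] at hi
    have e2 : p - 1 - t + (t - 1 - i) + 1 = p - (i + 1) := by omega
    rw [e2, ff_refl h4 (by omega)]
  rw [h2] at h1
  rw [GG]
  linarith

lemma col_sum {n : ℕ} (hp : p = 2 * n + 1) (h4 : p % 4 = 3) (k : Fin n) :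
    ∑ j, SS p n j k = 2 * GG p (n - 1 - k) - GG p (k + 1) - GG p k := by
  have hk := k.2
  have h1 : ∑ j : Fin n, ch p (ix p n j + ix p n k) = GG p (n - 1 - k) - GG p (k + 1) := by
    have h2 : ∑ j : Fin n, ch p (ix p n j + ix p n k) = ∑ j ∈ range n, ff p ((k : ℕ) + 1 + j + 1) := by
      rw [← Fin.sum_univ_eq_sum_range (fun j => ff p ((k : ℕ) + 1 + j + 1))]
      apply Finset.sum_congr rfl
      intro j _
      rw [ff, ix, ix]; push_cast; ring_nf
    have h3 : GG p ((k : ℕ) + 1 + n) = GG p (k + 1) + ∑ j ∈ range n, ff p ((k : ℕ) + 1 + j + 1) := by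
      rw [GG, Finset.sum_range_add]; rfl
    have h5 := GG_refl (p := p) h4 (t := n - 1 - k) (by omega)
    have e : p - 1 - (n - 1 - k) = (k : ℕ) + 1 + n := by omega
    rw [e] at h5
    rw [h2]
    linarith
  have h6 : ∑ j : Fin n, ch p (ix p n j - ix p n k) = GG p (n - 1 - k) - GG p k := by
    have h2 : ∑ j : Fin n, ch p (ix p n j - ix p n k)
        = ∑ j ∈ range n, ch p ((j : ZMod p) - ((k : ℕ) : ZMod p)) := by
      rw [← Fin.sum_univ_eq_sum_range (fun j => ch p ((j : ZMod p) - ((k : ℕ) : ZMod p)))]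
      apply Finset.sum_congr rfl
      intro j _
      rw [ix, ix]
      congr 1
      ring
    have e : n = (k : ℕ) + (n - k) := by omega
    have h3 : ∑ j ∈ range n, ch p ((j : ZMod p) - ((k : ℕ) : ZMod p))
        = ∑ j ∈ range (k : ℕ), ch p ((j : ZMod p) - ((k : ℕ) : ZMod p))
          + ∑ j ∈ range (n - k), ch p ((((k : ℕ) + j : ℕ) : ZMod p) - ((k : ℕ) : ZMod p)) := by
      have e' : range n = range ((k : ℕ) + (n - k)) := by rw [← e]
      rw [e', Finset.sum_range_add]
    have h7 : ∑ j ∈ range (n - k), ch p ((((k : ℕ) + j : ℕ) : ZMod p) - ((k : ℕ) : ZMod p))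
        = GG p (n - 1 - k) := by
      have e2 : n - (k : ℕ) = (n - 1 - k) + 1 := by omega
      rw [e2, Finset.sum_range_succ', GG]
      simp [ch_zero, ff]
    have h8 : ∑ j ∈ range (k : ℕ), ch p ((j : ZMod p) - ((k : ℕ) : ZMod p)) = - GG p k := by
      rw [GG, ← Finset.sum_range_reflect, ← Finset.sum_neg_distrib]
      apply Finset.sum_congr rfl
      intro i hi
      rw [mem_range] at hi
      have e3 : (((k : ℕ) - 1 - i : ℕ) : ZMod p) - ((k : ℕ) : ZMod p) = -(((i + 1 : ℕ)) : ZMod p) := by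
        rw [Nat.cast_sub (by omega), Nat.cast_sub (by omega)]
        push_cast
        ring
      rw [e3, ch_neg', ch_m1 h4, ff]
      ring
    rw [h2, h3, h7, h8]
    ring
  have h9 : ∑ j, SS p n j k = ∑ j : Fin n, ch p (ix p n j + ix p n k)
      + ∑ j : Fin n, ch p (ix p n j - ix p n k) := by
    rw [← Finset.sum_add_distrib]
    rfl
  rw [h9, h1, h6]
  ring

lemma WW_eq {n : ℕ} (hp : p = 2 * n + 1) (h4 : p % 4 = 3) :
    WW p n = 2 * YY (ff p) n - GG p n ^ 2 := by
  have h1 : WW p n = ∑ k ∈ range n, (2 * GG p (n - 1 - k) - GG p (k + 1) - GG p k) * ff p (k + 1) := by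
    rw [← Fin.sum_univ_eq_sum_range (fun k => (2 * GG p (n - 1 - k) - GG p (k + 1) - GG p k)
      * ff p (k + 1)), WW]
    apply Finset.sum_congr rfl
    intro k _
    rw [col_sum hp h4, bb, ix, ff]
    push_cast
    rfl
  have h2 : YY (ff p) n = ∑ k ∈ range n, GG p (n - 1 - k) * ff p (k + 1) := by
    unfold YY
    apply Finset.sum_congr rfl
    intro k _
    rw [← Finset.mul_sum, mul_comm]
    rfl
  have h3 : ∑ k ∈ range n, (GG p (k + 1) ^ 2 - GG p k ^ 2) = GG p n ^ 2 := by
    rw [Finset.sum_range_sub (fun k => GG p k ^ 2)]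
    simp [GG]
  rw [h1, h2, ← h3, Finset.mul_sum, ← Finset.sum_sub_distrib]
  apply Finset.sum_congr rfl
  intro k _
  have h4 : GG p (k + 1) = GG p k + ff p (k + 1) := by
    rw [GG, Finset.sum_range_succ]; rfl
  rw [h4]
  ring

theorem sixteen_dvd {n : ℕ} (hp : p = 2 * n + 1) (h4 : p % 4 = 3) :
    (16 : ℤ) ∣ HH p n ^ 2 + n * WW p n := by
  rw [WW_eq hp h4, HH_eq]
  obtain ⟨m, hm⟩ : ∃ m, n = 2 * m + 1 := ⟨(n - 1) / 2, by omega⟩
  have h := sixteen (f := ff p) hm (fun i h1 h2 => ff_sq h1 (by omega)) (fun i => ff_mul 2 i) (by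
    rcases Nat.even_or_odd m with he | ho
    · have h8 : p % 8 = 3 := by
        obtain ⟨r, hr⟩ := he
        omega
      right
      refine ⟨?_, he⟩
      have h5 : ¬ IsSquare (2 : ZMod p) := by
        rw [ZMod.exists_sq_eq_two_iff (by omega)]
        omega
      rw [ff]
      push_cast
      rw [ch, quadraticChar_neg_one_iff_not_isSquare]
      exact h5
    · have h8 : p % 8 = 7 := by
        obtain ⟨r, hr⟩ := ho
        omega
      left
      have h5 : IsSquare (2 : ZMod p) := by
        rw [ZMod.exists_sq_eq_two_iff (by omega)]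
        omega
      have h20 : (2 : ZMod p) ≠ 0 := by
        have : ((2 : ℕ) : ZMod p) ≠ 0 := by
          rw [Ne, ZMod.natCast_eq_zero_iff]
          intro h
          have := Nat.le_of_dvd (by norm_num) h
          omega
        simpa using this
      rw [ff]
      push_cast
      rw [ch, quadraticChar_one_iff_isSquare h20]
      exact h5)
  exact h

end Pool.Agent.Q23.HS
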