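import Pool.Agent.Q23.HS.Poly

/-!
# Bordered determinants
-/

set_option autoImplicit false
set_option linter.unusedSectionVars false
set_option linter.unusedVariables false

namespace Pool.Agent.Q23.HS

open Finset Matrix Pool.Agent.Q23.LD

variable {p : ℕ} [Fact p.Prime]

/-- the index equivalence -/
def eqv (n : ℕ) : Fin 1 ⊕ Fin n ≃ Fin (n + 1) :=
  finSumFinEquiv.trans (finCongr (Nat.add_comm 1 n))

lemma eqv_inl (n : ℕ) (i : Fin 1) : ((eqv n (Sum.inl i) : Fin (n + 1)) : ℕ) = 0 := by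
  have := i.2
  simp [eqv]

lemma eqv_inr (n : ℕ) (i : Fin n) : ((eqv n (Sum.inr i) : Fin (n + 1)) : ℕ) = i + 1 := by
  simp [eqv]

lemma eqv_inr' (n : ℕ) (i : Fin n) : eqv n (Sum.inr i) = i.succ := by
  apply Fin.ext
  rw [eqv_inr, Fin.val_succ]

lemma eqv_inl' (n : ℕ) (i : Fin 1) : eqv n (Sum.inl i) = 0 := by
  apply Fin.ext
  rw [eqv_inl, Fin.val_zero]

/-- multiples of one column are added to the others -/
theorem det_col {m : Type*} [Fintype m] [DecidableEq m] {R : Type*} [CommRing R]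
    {A B : Matrix m m R} (c : m → R) (k : m)
    (hk : c k = 0) (A_eq : ∀ i j, A i j = B i j + c j * B i k) : A.det = B.det := by
  rw [← det_transpose A, ← det_transpose B]
  exact Matrix.det_eq_of_forall_row_eq_smul_add_const c k hk (fun i j => A_eq j i)

/-- determinant of a bordered matrix over a field -/
theorem det_bord {n : ℕ} {K : Type*} [Field K] (A : Matrix (Fin n) (Fin n) K) (u v : Fin n → K)
    (t : K) (M : Matrix (Fin (n + 1)) (Fin (n + 1)) K) (h00 : M 0 0 = t)
    (h0 : ∀ k : Fin n, M 0 k.succ = v k) (h1 : ∀ j : Fin n, M j.succ 0 = u j)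
    (h2 : ∀ j k : Fin n, M j.succ k.succ = A j k) (hA : A.det ≠ 0) :
    M.det = A.det * (t - ∑ j, ∑ k, v j * A⁻¹ j k * u k) := by
  classical
  have hAi : Invertible A := Matrix.invertibleOfIsUnitDet A (isUnit_iff_ne_zero.2 hA)
  have hM : M.submatrix (eqv n) (eqv n) = Matrix.fromBlocks (Matrix.of fun _ _ : Fin 1 => t)
      (Matrix.of fun (_ : Fin 1) k => v k) (Matrix.of fun j (_ : Fin 1) => u j) A := by
    ext i j
    rcases i with i | i <;> rcases j with j | j
    · rw [submatrix_apply, eqv_inl', eqv_inl', fromBlocks_apply₁₁, of_apply, h00]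
    · rw [submatrix_apply, eqv_inl', eqv_inr', fromBlocks_apply₁₂, of_apply, h0]
    · rw [submatrix_apply, eqv_inl', eqv_inr', fromBlocks_apply₂₁, of_apply, h1]
    · rw [submatrix_apply, eqv_inr', eqv_inr', fromBlocks_apply₂₂, h2]
  rw [← Matrix.det_submatrix_equiv_self (eqv n) M, hM, Matrix.det_fromBlocks₂₂, invOf_eq_nonsing_inv]
  congr 1
  rw [Matrix.det_fin_one, Matrix.sub_apply, Matrix.of_apply, Matrix.mul_apply]
  congr 1
  have h3 : ∀ x : Fin n, ((Matrix.of fun (_ : Fin 1) k => v k) * A⁻¹) 0 x = ∑ j, v j * A⁻¹ j x := by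
    intro x
    rw [Matrix.mul_apply]
    rfl
  simp only [h3, Matrix.of_apply]
  simp only [Finset.sum_mul]
  rw [Finset.sum_comm]

lemma even_DD {n : ℕ} (hp : p = 2 * n + 1) {j k : Fin n} (hjk : j ≠ k) :
    (2 : ℤ) ∣ DD p n j k := by
  rw [DD, Matrix.of_apply]
  have h1 : ix p n j - ix p n k ≠ 0 := by
    intro h
    exact hjk ((ix_inj hp).1 (sub_eq_zero.1 h))
  rcases ch_cases (ix_add_ne hp j k) with h2 | h2 <;> rcases ch_cases h1 with h3 | h3 <;>
    rw [h2, h3] <;> norm_num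

lemma sum_symm {n : ℕ} (f : Fin n → Fin n → ℤ) (hf : ∀ j k, f k j = f j k) :
    ∑ j, ∑ k, f j k = ∑ j, f j j + 2 * ∑ j, ∑ k, if j < k then f j k else 0 := by
  have h1 : ∀ j k : Fin n, f j k = (if j < k then f j k else 0) + (if k < j then f j k else 0)
      + (if j = k then f j k else 0) := by
    intro j k
    rcases lt_trichotomy j k with h | h | h
    · rw [if_pos h, if_neg (not_lt.2 h.le), if_neg h.ne]; ring
    · rw [if_neg (by rw [h]; exact lt_irrefl _), if_neg (by rw [h]; exact lt_irrefl _), if_pos h]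
      ring
    · rw [if_neg (not_lt.2 h.le), if_pos h, if_neg h.ne']; ring
  have h2 : ∑ j, ∑ k, f j k = ∑ j, ∑ k, (if j < k then f j k else 0)
      + ∑ j, ∑ k, (if k < j then f j k else 0) + ∑ j, ∑ k, (if j = k then f j k else 0) := by
    simp only [← Finset.sum_add_distrib]
    apply Finset.sum_congr rfl; intro j _
    apply Finset.sum_congr rfl; intro k _
    exact h1 j k
  have h3 : ∑ j, ∑ k, (if k < j then f j k else 0) = ∑ j, ∑ k, (if j < k then f j k else 0) := by
    rw [Finset.sum_comm]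
    apply Finset.sum_congr rfl; intro j _
    apply Finset.sum_congr rfl; intro k _
    rw [hf]
  have h4 : ∑ j, ∑ k, (if j = k then f j k else 0) = ∑ j, f j j := by
    apply Finset.sum_congr rfl; intro j _
    rw [Finset.sum_ite_eq]
    simp
  rw [h2, h3, h4]; ring

theorem four_dvd {n : ℕ} (hp : p = 2 * n + 1) (h1 : ch p (-1) = 1) :
    (4 : ℤ) ∣ ∑ j, ∑ k, bb p n j * DD p n j k * bb p n k := by
  have hs : ∀ j k, DD p n k j = DD p n j k := by
    intro j k
    have := congrFun (congrFun (DD_symm (p := p) (n := n) h1) j) k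
    rw [Matrix.transpose_apply] at this
    exact this
  rw [sum_symm (fun j k => bb p n j * DD p n j k * bb p n k) (by
    intro j k
    rw [hs]; ring)]
  have h2 : ∑ j, bb p n j * DD p n j j * bb p n j = 0 := by
    have h3 := trace_DD hp
    rw [sum_bb hp h1, mul_zero, Matrix.trace] at h3
    rw [← h3]
    apply Finset.sum_congr rfl
    intro j _
    rw [Matrix.diag_apply]
    linear_combination DD p n j j * bb_sq hp j
  rw [h2, zero_add]
  have h4 : (2 : ℤ) ∣ ∑ j, ∑ k, if j < k then bb p n j * DD p n j k * bb p n k else 0 := by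
    apply Finset.dvd_sum; intro j _
    apply Finset.dvd_sum; intro k _
    split_ifs with h
    · exact Dvd.dvd.mul_right (Dvd.dvd.mul_left (even_DD hp h.ne) _) _
    · exact dvd_zero _
  obtain ⟨t, ht⟩ := h4
  exact ⟨t, by rw [ht]; ring⟩

/-- the bordered matrix of the differences -/
noncomputable def EE2 (p n : ℕ) [Fact p.Prime] {R : Type*} [CommRing R] (y z : R) :
    Matrix (Fin (n + 1)) (Fin (n + 1)) R :=
  Matrix.of fun j k => (ch p ((j : ℕ) + (k : ℕ)) : R) - (ch p ((j : ℕ) - (k : ℕ)) : R)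
    + (ch p (j : ℕ) : R) * y + (ch p (k : ℕ) : R) * z

lemma map_EE2 (p n : ℕ) [Fact p.Prime] {R S : Type*} [CommRing R] [CommRing S] (f : R →+* S)
    (y z : R) : f (EE2 p n y z).det = (EE2 p n (f y) (f z)).det := by
  rw [f.map_det]
  congr 1
  ext j k
  simp [EE2]

theorem det_EE2_real {n : ℕ} (hp : p = 2 * n + 1) (h1 : ch p (-1) = 1) :
    ∃ m, n = 2 * (m + 1) ∧ ∃ c : ℤ, ∀ y z : ℝ, (EE2 p n y z).det = 4 * p ^ m * c * (y * z) := by
  classical
  obtain ⟨m, hm, hd⟩ := det_DD hp h1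
  have hp0 : (0 : ℝ) < p := by exact_mod_cast (Fact.out : p.Prime).pos
  obtain ⟨m', rfl⟩ : ∃ m', m = m' + 1 := by
    rcases m with _ | m
    · have := (Fact.out : p.Prime).two_le
      omega
    · exact ⟨m, rfl⟩
  obtain ⟨c, hc⟩ := four_dvd hp h1
  refine ⟨m', hm, (-1) ^ m' * c, ?_⟩
  intro y z
  set A : Matrix (Fin n) (Fin n) ℝ := (DD p n).map (Int.cast : ℤ → ℝ) with hA
  have hAd : A.det = ((DD p n).det : ℝ) := by
    have := (Int.castRingHom ℝ).map_det (DD p n)
    rw [RingHom.mapMatrix_apply] at this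
    exact this.symm
  have hAd' : A.det = (-(p : ℝ)) ^ (m' + 1) := by
    rw [hAd, hd]; push_cast; ring
  have hA0 : A.det ≠ 0 := by
    rw [hAd']; exact pow_ne_zero _ (neg_ne_zero.2 hp0.ne')
  have hAA : A * A = (p : ℝ) • (1 : Matrix (Fin n) (Fin n) ℝ) := by
    ext j l
    have h := DD_mul_tr hp j l
    rw [DD_symm h1, h1, Matrix.mul_apply] at h
    have h2 := congrArg (Int.cast : ℤ → ℝ) h
    push_cast at h2
    rw [Matrix.mul_apply, Matrix.smul_apply, Matrix.one_apply]
    have h3 : ∑ k, A j k * A k l = ∑ k, ((DD p n j k : ℤ) : ℝ) * ((DD p n k l : ℤ) : ℝ) := rfl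
    rw [h3, h2]
    split_ifs <;> simp
  have hAi : A⁻¹ = (p : ℝ)⁻¹ • A := by
    apply Matrix.inv_eq_right_inv
    rw [Matrix.mul_smul, hAA, smul_smul, inv_mul_cancel₀ hp0.ne', one_smul]
  set b : Fin n → ℝ := fun j => (bb p n j : ℝ) with hb
  have hs : ∀ j : Fin n, ((j.succ : Fin (n + 1)) : ℕ) = (j : ℕ) + 1 := fun j => Fin.val_succ j
  have hc0 : ch p ((0 : ℕ) : ZMod p) = 0 := by rw [Nat.cast_zero, ch_zero]
  -- remove the multiples of the first row and column
  set M1 : Matrix (Fin (n + 1)) (Fin (n + 1)) ℝ := Matrix.of fun j k =>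
    (ch p ((j : ℕ) + (k : ℕ)) : ℝ) - (ch p ((j : ℕ) - (k : ℕ)) : ℝ)
    + (if k = 0 then (ch p (j : ℕ) : ℝ) * y else 0) + (ch p (k : ℕ) : ℝ) * z with hM1
  set M2 : Matrix (Fin (n + 1)) (Fin (n + 1)) ℝ := Matrix.of fun j k =>
    (ch p ((j : ℕ) + (k : ℕ)) : ℝ) - (ch p ((j : ℕ) - (k : ℕ)) : ℝ)
    + (if k = 0 then (ch p (j : ℕ) : ℝ) * y else 0) + (if j = 0 then (ch p (k : ℕ) : ℝ) * z else 0)
    with hM2
  have e1 : (EE2 p n y z).det = M1.det := by
    apply det_col (fun k => if k = 0 then 0 else 1) 0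
      (by simp)
    intro j k
    rw [EE2, hM1, Matrix.of_apply, Matrix.of_apply, Matrix.of_apply, if_pos rfl]
    simp only [Fin.val_zero, Nat.cast_zero, add_zero, sub_zero, ch_zero]
    by_cases hk : k = 0
    · rw [if_pos hk, if_pos hk, hk]
      simp [ch_zero]
    · rw [if_neg hk, if_neg hk]
      simp
      ring
  have e2 : M1.det = M2.det := by
    apply Matrix.det_eq_of_forall_row_eq_smul_add_const (fun k => if k = 0 then 0 else 1) 0
      (by simp)
    intro j k
    rw [hM1, hM2, Matrix.of_apply, Matrix.of_apply, Matrix.of_apply, if_pos rfl]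
    by_cases hj : j = 0
    · rw [hj]; simp
    · rw [if_neg hj, if_neg hj]
      simp only [Fin.val_zero, Nat.cast_zero, zero_add, zero_sub, ch_zero, ch_neg' ((k : ℕ) : ZMod p),
        h1, one_mul, Int.cast_zero, zero_mul]
      split_ifs <;> ring
  rw [e1, e2]
  rw [det_bord A (fun j => b j * y) (fun k => b k * z) 0 M2 ?_ ?_ ?_ ?_ hA0]
  · rw [hAi, hAd']
    have hq : ∑ j, ∑ k, b j * z * ((p : ℝ)⁻¹ • A) j k * (b k * y)
        = (p : ℝ)⁻¹ * (y * z) * ((4 * c : ℤ) : ℝ) := by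
      rw [← hc]
      push_cast
      rw [Finset.mul_sum]
      apply Finset.sum_congr rfl; intro j _
      rw [Finset.mul_sum]
      apply Finset.sum_congr rfl; intro k _
      rw [Matrix.smul_apply, smul_eq_mul, hA, Matrix.map_apply]
      ring
    rw [hq]
    push_cast
    have h5 : (p : ℝ) * (p : ℝ)⁻¹ = 1 := mul_inv_cancel₀ hp0.ne'
    have h6 : (-(p : ℝ)) ^ (m' + 1) = -p * ((-1) ^ m' * p ^ m') := by
      rw [pow_succ, neg_pow]; ring
    rw [h6]
    linear_combination ((-1) ^ m' * p ^ m' * (y * z) * (4 * c)) * h5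
  · rw [hM2, Matrix.of_apply]
    simp [ch_zero]
  · intro k
    rw [hM2, Matrix.of_apply, if_neg (Fin.succ_ne_zero k), if_pos rfl, hs, hb]
    simp only [Fin.val_zero, Nat.cast_zero, zero_add, zero_sub, ch_neg' (((k : ℕ) + 1 : ℕ) : ZMod p),
        h1, one_mul, bb, ix_eq]
    ring
  · intro j
    rw [hM2, Matrix.of_apply, if_neg (Fin.succ_ne_zero j), if_pos rfl, hs, hb]
    simp only [Fin.val_zero, Nat.cast_zero, add_zero, sub_zero, bb, ix_eq]
    ring
  · intro j k
    rw [hM2, Matrix.of_apply, if_neg (Fin.succ_ne_zero j), if_neg (Fin.succ_ne_zero k), hs, hs, hA,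
      Matrix.map_apply, DD, Matrix.of_apply]
    rw [ix_eq, ix_eq]
    push_cast
    ring

theorem det_EE2 {n : ℕ} (hp : p = 2 * n + 1) (h1 : ch p (-1) = 1) :
    ∃ m, n = 2 * (m + 1) ∧ ∃ c : ℤ, ∀ {R : Type*} [CommRing R] (y z : R),
      (EE2 p n y z).det = 4 * (p : R) ^ m * (c : R) * (y * z) := by
  obtain ⟨m, hm, c, hr⟩ := det_EE2_real hp h1
  refine ⟨m, hm, c, ?_⟩
  intro R _ y z
  have hP : (EE2 p n (MvPolynomial.X 0 : MvPolynomial (Fin 2) ℤ) (MvPolynomial.X 1)).det
      = 4 * (p : MvPolynomial (Fin 2) ℤ) ^ m * (c : MvPolynomial (Fin 2) ℤ) *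
        (MvPolynomial.X 0 * MvPolynomial.X 1) := by
    apply mv_ext
    intro v
    rw [map_EE2]
    simp only [map_mul, map_pow, map_natCast, map_intCast, map_ofNat,
      MvPolynomial.coe_eval₂Hom, MvPolynomial.eval₂_X]
    exact hr _ _
  have h := congrArg (MvPolynomial.eval₂Hom (Int.castRingHom R) ![y, z]) hP
  rw [map_EE2] at h
  simp only [map_mul, map_pow, map_natCast, map_intCast, map_ofNat,
      MvPolynomial.coe_eval₂Hom, MvPolynomial.eval₂_X] at h
  exact h

end Pool.Agent.Q23.HS
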