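import Pool.Agent.Q23.HS.Three
import Pool.Agent.Q23.HS.Bord

/-!
# Bordered half range determinants
-/

set_option autoImplicit false
set_option linter.unusedSectionVars false
set_option linter.unusedVariables false

namespace Pool.Agent.Q23.HS

open Finset Matrix
open Pool.Agent.Q23.LD

lemma det_block {n : ℕ} {R : Type*} [CommRing R] (T : Matrix (Fin n) (Fin n) R)
    (M : Matrix (Fin (n + 1)) (Fin (n + 1)) R) (h00 : M 0 0 = 1)
    (h0 : ∀ k : Fin n, M 0 k.succ = 0) (h2 : ∀ j k : Fin n, M j.succ k.succ = T j k) :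
    M.det = T.det := by
  rw [Matrix.det_succ_row_zero, Fin.sum_univ_succ]
  simp only [h00, h0, Fin.val_zero, pow_zero, one_mul, mul_zero, zero_mul, Finset.sum_const_zero,
    add_zero]
  congr 1
  ext j k
  rw [Matrix.submatrix_apply, Fin.succAbove_zero, h2]

theorem det_border {n : ℕ} {R : Type*} [CommRing R] (T : Matrix (Fin n) (Fin n) R) (b : Fin n → R)
    (x y ζ w H : R) (hT : ∀ j, ∑ k, T j k = - b j) (hH : ∑ k, b k = H)
    (M : Matrix (Fin (n + 1)) (Fin (n + 1)) R) (h00 : M 0 0 = x)
    (h0 : ∀ k : Fin n, M 0 k.succ = x + ζ * b k) (h1 : ∀ j : Fin n, M j.succ 0 = x + (y + 2) * b j)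
    (h2 : ∀ j k : Fin n, M j.succ k.succ = x + T j k + y * b j + ζ * b k + w * b j * b k) :
    M.det = T.det * (x * (1 - n * y - w * H) + (n * x + ζ * H) * (y + 2)) := by
  set B : Matrix (Fin (n + 1)) (Fin (n + 1)) R :=
    Matrix.of fun i k => if i = 0 then M 0 k else M i k - M 0 k with hB
  have hMB : M.det = B.det := by
    apply Matrix.det_eq_of_forall_row_eq_smul_add_const (fun i => if i = 0 then 0 else 1) 0 (by simp)
    intro i j
    rw [hB, Matrix.of_apply, Matrix.of_apply]
    by_cases hi : i = 0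
    · subst hi; simp
    · simp [hi]
  set M0 : Matrix (Fin (n + 1)) (Fin (n + 1)) R :=
    Matrix.of (Fin.cons (Fin.cons 1 0) (fun j => Fin.cons 0 (T j))) with hM0
  have m00 : M0 0 0 = 1 := rfl
  have m0s : ∀ k : Fin n, M0 0 k.succ = 0 := fun k => rfl
  have ms0 : ∀ k : Fin n, M0 k.succ 0 = 0 := fun k => rfl
  have mss : ∀ j k : Fin n, M0 j.succ k.succ = T j k := fun j k => rfl
  have h := det_two M0 (Fin.cons 1 0) (Fin.cons 0 b) (Fin.cons (x - 1) (fun k => x + ζ * b k))
    (Fin.cons (y + 2) (fun k => y + w * b k)) (Fin.cons 1 0) (Fin.cons 0 (fun _ => -1))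
    (by
      intro j
      rw [Fin.sum_univ_succ]
      refine Fin.cases ?_ (fun j => ?_) j
      · simp [m00]
      · simp [ms0])
    (by
      intro j
      rw [Fin.sum_univ_succ]
      refine Fin.cases ?_ (fun j => ?_) j
      · simp [m0s]
      · simp [mss, hT]) B
    (by
      intro j k
      refine Fin.cases ?_ (fun j => ?_) j <;> refine Fin.cases ?_ (fun k => ?_) k
      · simp [hB, h00, m00]
      · simp [hB, h0, m0s]
      · simp [hB, h00, h1, ms0]; ring
      · simp [hB, h0, h2, mss]; ring)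
  rw [hMB, h, det_block T M0 m00 m0s mss]
  simp only [Fin.sum_univ_succ, Fin.cons_zero, Fin.cons_succ, Pi.zero_apply, mul_zero, mul_one,
    Finset.sum_const_zero, add_zero, mul_neg, zero_add, Finset.sum_neg_distrib,
    Finset.sum_add_distrib, ← Finset.mul_sum, hH]
  simp only [Finset.sum_const, Finset.card_univ, Fintype.card_fin, nsmul_eq_mul]
  ring

variable {p : ℕ} [Fact p.Prime]

lemma ch_cast (k n : ℕ) (h : k < n) : (((⟨k, h⟩ : Fin n) : ℕ) : ZMod p) = (k : ZMod p) := rfl

theorem det_EE4_three {n : ℕ} (hp : p = 2 * n + 1) (h4 : p % 4 = 3)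
    {R : Type*} [CommRing R] (x y z w : R) :
    (EE4 p n x y z w).det = (((SS p n).det : ℤ) : R) *
      ((p : R) * x + (HH p n : R) * ((y + 2) * z - w * x)) := by
  have hpn : (p : R) = 2 * n + 1 := by
    have := congrArg (Nat.cast : ℕ → R) hp
    push_cast at this
    exact this
  have hT : ∀ j, ∑ k, ((SS p n).map (Int.cast : ℤ → R)) j k = -(bb p n j : R) := by
    intro j
    have := congrArg (Int.cast : ℤ → R) (SS_row hp j)
    push_cast at this
    simpa using this
  have hH : ∑ k, (bb p n k : R) = (HH p n : R) := by rw [HH]; push_cast; rfl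
  have hix : ∀ k : Fin n, (((k.succ : Fin (n + 1)) : ℕ) : ZMod p) = ix p n k := by
    intro k
    rw [Fin.val_succ, ix]; push_cast; rfl
  have hneg : ∀ k : Fin n, ch p (-ix p n k) = - ch p (ix p n k) := by
    intro k
    rw [ch_neg', ch_m1 h4]; ring
  have h := det_border ((SS p n).map (Int.cast : ℤ → R)) (fun k => (bb p n k : R)) x y z w
    (HH p n : R) hT hH (EE4 p n x y z w)
    (by
      rw [EE4, Matrix.of_apply]
      simp [ch_zero])
    (by
      intro k
      rw [EE4, Matrix.of_apply, hix]
      simp only [Fin.val_zero, Nat.cast_zero, zero_add, zero_sub, zero_mul, ch_zero, hneg]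
      unfold bb
      push_cast
      ring)
    (by
      intro k
      rw [EE4, Matrix.of_apply, hix]
      simp only [Fin.val_zero, Nat.cast_zero, add_zero, sub_zero, mul_zero, ch_zero]
      unfold bb
      push_cast
      ring)
    (by
      intro j k
      rw [EE4, Matrix.of_apply, hix, hix, Matrix.map_apply, SS, Matrix.of_apply, ch_mul]
      unfold bb
      push_cast
      ring)
  rw [h]
  have hdet : ((SS p n).map (Int.cast : ℤ → R)).det = (((SS p n).det : ℤ) : R) :=
    ((Int.castRingHom R).map_det (SS p n)).symm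
  rw [hdet, hpn]
  ring

theorem det_EE4_one {n : ℕ} (hp : p = 2 * n + 1) (h4 : p % 4 = 1)
    {R : Type*} [CommRing R] (x y z w : R) :
    (EE4 p n x y z w).det = (-1) ^ ((p - 1) / 4) * (p : R) ^ ((p + 3) / 4) * x := by
  have h1 : ch p (-1) = 1 := ch_neg_one h4
  have hpn : (p : R) = 2 * n + 1 := by
    have := congrArg (Nat.cast : ℕ → R) hp
    push_cast at this
    exact this
  have hH : ∑ k, (bb p n k : R) = 0 := by
    have := congrArg (Int.cast : ℤ → R) (sum_bb hp h1)
    push_cast at this
    exact this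
  have hT : ∀ j, ∑ k, (MM4 p n (0 : R) 0 (-2) 0) j k = -(bb p n j : R) := by
    intro j
    have := congrArg (Int.cast : ℤ → R) (SS_row hp j)
    push_cast at this
    have h2 : ∀ k, (MM4 p n (0 : R) 0 (-2) 0) j k = (SS p n j k : R) + (bb p n k : R) * (-2) := by
      intro k
      rw [MM4, Matrix.of_apply]; ring
    rw [Finset.sum_congr rfl (fun k _ => h2 k), Finset.sum_add_distrib, ← Finset.sum_mul, hH, this]
    ring
  have hix : ∀ k : Fin n, (((k.succ : Fin (n + 1)) : ℕ) : ZMod p) = ix p n k := by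
    intro k
    rw [Fin.val_succ, ix]; push_cast; rfl
  have hneg : ∀ k : Fin n, ch p (-ix p n k) = ch p (ix p n k) := by
    intro k
    rw [ch_neg', h1]; ring
  have h := det_border (MM4 p n (0 : R) 0 (-2) 0) (fun k => (bb p n k : R)) x y (z + 2) w
    0 hT hH (EE4 p n x y z w)
    (by
      rw [EE4, Matrix.of_apply]
      simp [ch_zero])
    (by
      intro k
      rw [EE4, Matrix.of_apply, hix]
      simp only [Fin.val_zero, Nat.cast_zero, zero_add, zero_sub, zero_mul, ch_zero, hneg]
      unfold bb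
      push_cast
      ring)
    (by
      intro k
      rw [EE4, Matrix.of_apply, hix]
      simp only [Fin.val_zero, Nat.cast_zero, add_zero, sub_zero, mul_zero, ch_zero]
      unfold bb
      push_cast
      ring)
    (by
      intro j k
      rw [EE4, Matrix.of_apply, hix, hix, MM4, Matrix.of_apply, SS, Matrix.of_apply, ch_mul]
      unfold bb
      push_cast
      ring)
  obtain ⟨m, hm, hd⟩ := det_MM4_one hp h1
  rw [h, hd]
  have e1 : (p - 1) / 4 = m + 1 := by omega
  have e2 : (p + 3) / 4 = m + 2 := by omega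
  rw [e1, e2, neg_pow (p : R) m]
  have e3 : (p : R) ^ (m + 2) = (p : R) ^ m * (2 * n + 1) * (2 * n + 1) := by
    rw [← hpn]; ring
  rw [e3]
  ring

end Pool.Agent.Q23.HS
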