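import Mathlib

/-!
# A congruence modulo sixteen
-/

set_option autoImplicit false
set_option linter.unusedSectionVars false
set_option linter.unusedVariables false

namespace Pool.Agent.Q23.HS

open Finset

lemma prod_sign {ι : Type*} (s : Finset ι) (e : ι → ℤ) (he : ∀ i ∈ s, e i * e i = 1) :
    (∏ i ∈ s, e i) * (∏ i ∈ s, e i) = 1 := by
  rw [← Finset.prod_mul_distrib]
  exact Finset.prod_eq_one he

/-- sums of signs modulo four -/
lemma sum_sign {ι : Type*} (s : Finset ι) (e : ι → ℤ) (he : ∀ i ∈ s, e i * e i = 1) :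
    (4 : ℤ) ∣ ∑ i ∈ s, e i - s.card - (∏ i ∈ s, e i - 1) := by
  classical
  induction s using Finset.induction_on with
  | empty => simp
  | insert a s ha ih =>
    have h1 := ih (fun i hi => he i (mem_insert_of_mem hi))
    have h2 := prod_sign s e (fun i hi => he i (mem_insert_of_mem hi))
    have h3 := he a (mem_insert_self a s)
    rw [sum_insert ha, prod_insert ha, card_insert_of_notMem ha]
    set P := ∏ i ∈ s, e i with hP
    have h4 : P = 1 ∨ P = -1 := by
      have : (P - 1) * (P + 1) = 0 := by linear_combination h2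
      rcases mul_eq_zero.1 this with h | h
      · left; omega
      · right; omega
    have h5 : e a = 1 ∨ e a = -1 := by
      have : (e a - 1) * (e a + 1) = 0 := by linear_combination h3
      rcases mul_eq_zero.1 this with h | h
      · left; omega
      · right; omega
    push_cast
    rcases h4 with h | h <;> rcases h5 with h' | h' <;> rw [h] at h1 ⊢ <;> rw [h'] <;> omega

/-- sum over the triangle -/
def YY (f : ℕ → ℤ) (n : ℕ) : ℤ :=
  ∑ k ∈ range n, ∑ i ∈ range (n - 1 - k), f (k + 1) * f (i + 1)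

lemma YY_succ (f : ℕ → ℤ) (n : ℕ) :
    YY f (n + 1) = YY f n + ∑ k ∈ range n, f (k + 1) * f (n - k) := by
  unfold YY
  rw [sum_range_succ]
  have h0 : n + 1 - 1 - n = 0 := by omega
  rw [h0, range_zero, sum_empty, add_zero, ← sum_add_distrib]
  apply sum_congr rfl
  intro k hk
  rw [mem_range] at hk
  have h1 : n + 1 - 1 - k = (n - 1 - k) + 1 := by omega
  have h2 : n - k = (n - 1 - k) + 1 := by omega
  rw [h1, sum_range_succ, ← h2]

lemma sum_even (g : ℕ → ℤ) (M : ℕ) (h : ∀ k < M, g (2 * M - 1 - k) = g k) :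
    ∑ k ∈ range (2 * M), g k = 2 * ∑ k ∈ range M, g k := by
  rw [two_mul M, sum_range_add]
  have h1 : ∑ x ∈ range M, g (M + x) = ∑ x ∈ range M, g x := by
    rw [← sum_range_reflect]
    apply sum_congr rfl
    intro k hk
    rw [mem_range] at hk
    rw [← h k hk]
    congr 1
    omega
  rw [h1]; ring

lemma sum_odd (g : ℕ → ℤ) (M : ℕ) (h : ∀ k < M, g (2 * M - k) = g k) :
    ∑ k ∈ range (2 * M + 1), g k = g M + 2 * ∑ k ∈ range M, g k := by
  have e : 2 * M + 1 = (M + 1) + M := by ring
  rw [e, sum_range_add, sum_range_succ]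
  have h1 : ∑ x ∈ range M, g (M + 1 + x) = ∑ x ∈ range M, g x := by
    rw [← sum_range_reflect]
    apply sum_congr rfl
    intro k hk
    rw [mem_range] at hk
    rw [← h k hk]
    congr 1
    omega
  rw [h1]; ring

lemma layer {f : ℕ → ℤ} {n : ℕ} (hf : ∀ i, 1 ≤ i → i ≤ n → f i * f i = 1)
    (h2 : ∀ i, f (2 * i) = f 2 * f i) {m : ℕ} (hm : 2 * m + 2 ≤ n) :
    (∏ k ∈ range m, f (k + 1) * f (2 * m + 1 - k)) * (∏ k ∈ range (m + 1), f (k + 1) * f (2 * m + 2 - k))
      = f 2 := by
  rw [prod_mul_distrib, prod_mul_distrib]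
  have hX1 : (∏ k ∈ range (m + 1), f (k + 1)) * ∏ k ∈ range m, f (2 * m + 1 - k)
      = ∏ k ∈ range (2 * m + 1), f (k + 1) := by
    have e : 2 * m + 1 = (m + 1) + m := by ring
    rw [e, prod_range_add (fun k => f (k + 1)) (m + 1) m]
    congr 1
    rw [← prod_range_reflect]
    apply prod_congr rfl
    intro k hk
    rw [mem_range] at hk
    congr 1
    omega
  have hX2 : (∏ k ∈ range (m + 1), f (k + 1)) * ∏ k ∈ range (m + 1), f (2 * m + 2 - k)
      = ∏ k ∈ range (2 * m + 2), f (k + 1) := by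
    have e : 2 * m + 2 = (m + 1) + (m + 1) := by ring
    rw [e, prod_range_add (fun k => f (k + 1)) (m + 1) (m + 1)]
    congr 1
    rw [← prod_range_reflect]
    apply prod_congr rfl
    intro k hk
    rw [mem_range] at hk
    congr 1
    omega
  have hs : ∀ r, r ≤ n → (∏ k ∈ range r, f (k + 1)) * (∏ k ∈ range r, f (k + 1)) = 1 := by
    intro r hr
    apply prod_sign
    intro i hi
    rw [mem_range] at hi
    exact hf _ (by omega) (by omega)
  have hsX : (∏ k ∈ range m, f (2 * m + 1 - k)) * (∏ k ∈ range m, f (2 * m + 1 - k)) = 1 := by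
    apply prod_sign
    intro i hi
    rw [mem_range] at hi
    exact hf _ (by omega) (by omega)
  rw [show 2 * m + 2 = 2 * m + 1 + 1 from rfl, prod_range_succ _ (2 * m + 1)] at hX2
  have h3 : f (2 * m + 1 + 1) = f 2 * f (m + 1) := by
    rw [← h2]; congr 1
  have h4 := hs m (by omega)
  have h5 := hs (m + 1) (by omega)
  have h6 := hf (m + 1) (by omega) (by omega)
  have h7 : ∏ k ∈ range (m + 1), f (k + 1) = (∏ k ∈ range m, f (k + 1)) * f (m + 1) :=
    prod_range_succ _ _
  rw [h3, ← hX1] at hX2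
  set A := ∏ k ∈ range m, f (k + 1)
  set B := ∏ k ∈ range (m + 1), f (k + 1)
  set X1 := ∏ k ∈ range m, f (2 * m + 1 - k)
  set X2 := ∏ k ∈ range (m + 1), f (2 * m + 1 + 1 - k)
  have h8 : X2 = X1 * (f 2 * f (m + 1)) := by
    have h9 : B * B * X2 = B * B * (X1 * (f 2 * f (m + 1))) := by linear_combination B * hX2
    rw [h5, one_mul, one_mul] at h9
    exact h9
  have h10 : A * X1 * (B * X2) = f 2 := by
    rw [h8, h7]
    linear_combination (A * A * f (m + 1) * f (m + 1) * f 2) * hsX + (f (m + 1) * f (m + 1) * f 2) * h4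
      + f 2 * h6
  exact h10

lemma YY_odd {f : ℕ → ℤ} {n : ℕ} (hf : ∀ i, 1 ≤ i → i ≤ n → f i * f i = 1)
    (h2 : ∀ i, f (2 * i) = f 2 * f i) (m : ℕ) (hm : 2 * m + 1 ≤ n) :
    ∃ Y' : ℤ, YY f (2 * m + 1) = m + 2 * Y' ∧ (4 : ℤ) ∣ Y' - m ^ 2 - m * (f 2 - 1) := by
  induction m with
  | zero => exact ⟨0, by simp [YY], by simp⟩
  | succ m ih =>
    obtain ⟨Y', hY, hd⟩ := ih (by omega)
    set a := ∑ k ∈ range m, f (k + 1) * f (2 * m + 1 - k) with ha
    set b := ∑ k ∈ range (m + 1), f (k + 1) * f (2 * m + 2 - k) with hb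
    have h3 : ∑ k ∈ range (2 * m + 1), f (k + 1) * f (2 * m + 1 - k) = 1 + 2 * a := by
      rw [sum_odd]
      · have : 2 * m + 1 - m = m + 1 := by omega
        rw [this, hf (m + 1) (by omega) (by omega)]
      · intro k hk
        have e1 : 2 * m - k + 1 = 2 * m + 1 - k := by omega
        have e2 : 2 * m + 1 - (2 * m - k) = k + 1 := by omega
        rw [e1, e2, mul_comm]
    have h4 : ∑ k ∈ range (2 * m + 2), f (k + 1) * f (2 * m + 2 - k) = 2 * b := by
      have e : 2 * m + 2 = 2 * (m + 1) := by ring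
      rw [hb, e, sum_even]
      intro k hk
      have e1 : 2 * (m + 1) - 1 - k + 1 = 2 * (m + 1) - k := by omega
      have e2 : 2 * (m + 1) - (2 * (m + 1) - 1 - k) = k + 1 := by omega
      rw [e1, e2, mul_comm]
    refine ⟨Y' + a + b, ?_, ?_⟩
    · have e : 2 * (m + 1) + 1 = (2 * m + 1) + 1 + 1 := by ring
      rw [e, YY_succ, YY_succ, hY, h3, show 2 * m + 1 + 1 = 2 * m + 2 from rfl, h4]
      push_cast
      ring
    · have h5 := sum_sign (range m) (fun k => f (k + 1) * f (2 * m + 1 - k)) (by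
        intro k hk
        rw [mem_range] at hk
        have e1 := hf (k + 1) (by omega) (by omega)
        have e2 := hf (2 * m + 1 - k) (by omega) (by omega)
        linear_combination f (2 * m + 1 - k) * f (2 * m + 1 - k) * e1 + e2)
      have h6 := sum_sign (range (m + 1)) (fun k => f (k + 1) * f (2 * m + 2 - k)) (by
        intro k hk
        rw [mem_range] at hk
        have e1 := hf (k + 1) (by omega) (by omega)
        have e2 := hf (2 * m + 2 - k) (by omega) (by omega)
        linear_combination f (2 * m + 2 - k) * f (2 * m + 2 - k) * e1 + e2)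
      have h7 := prod_sign (range m) (fun k => f (k + 1) * f (2 * m + 1 - k)) (by
        intro k hk
        rw [mem_range] at hk
        have e1 := hf (k + 1) (by omega) (by omega)
        have e2 := hf (2 * m + 1 - k) (by omega) (by omega)
        linear_combination f (2 * m + 1 - k) * f (2 * m + 1 - k) * e1 + e2)
      have h8 := prod_sign (range (m + 1)) (fun k => f (k + 1) * f (2 * m + 2 - k)) (by
        intro k hk
        rw [mem_range] at hk
        have e1 := hf (k + 1) (by omega) (by omega)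
        have e2 := hf (2 * m + 2 - k) (by omega) (by omega)
        linear_combination f (2 * m + 2 - k) * f (2 * m + 2 - k) * e1 + e2)
      have h9 := layer hf h2 (m := m) (by omega)
      simp only [card_range] at h5 h6
      set P := ∏ k ∈ range m, f (k + 1) * f (2 * m + 1 - k)
      set Q := ∏ k ∈ range (m + 1), f (k + 1) * f (2 * m + 2 - k)
      rw [← ha] at h5
      rw [← hb] at h6
      have hP : P = 1 ∨ P = -1 := by
        have : (P - 1) * (P + 1) = 0 := by linear_combination h7
        rcases mul_eq_zero.1 this with h | h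
        · left; omega
        · right; omega
      have hQ : Q = 1 ∨ Q = -1 := by
        have : (Q - 1) * (Q + 1) = 0 := by linear_combination h8
        rcases mul_eq_zero.1 this with h | h
        · left; omega
        · right; omega
      have h10 : (4 : ℤ) ∣ (P - 1) + (Q - 1) - (f 2 - 1) := by
        rw [← h9]
        rcases hP with h | h <;> rcases hQ with h' | h' <;> rw [h, h'] <;> norm_num
      have e : Y' + a + b - ((m + 1 : ℕ) : ℤ) ^ 2 - ((m + 1 : ℕ) : ℤ) * (f 2 - 1)
          = (Y' - m ^ 2 - m * (f 2 - 1)) + (a - (m : ℤ) - (P - 1)) + (b - ((m + 1 : ℕ) : ℤ) - (Q - 1))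
            + ((P - 1) + (Q - 1) - (f 2 - 1)) := by
        push_cast
        ring
      rw [e]
      exact dvd_add (dvd_add (dvd_add hd h5) h6) h10

lemma sum_parity {f : ℕ → ℤ} {n : ℕ} (hf : ∀ i, 1 ≤ i → i ≤ n → f i * f i = 1) :
    (2 : ℤ) ∣ ∑ i ∈ range n, f (i + 1) - n := by
  have h1 := sum_sign (range n) (fun i => f (i + 1)) (by
    intro i hi
    rw [mem_range] at hi
    exact hf _ (by omega) (by omega))
  have h2 := prod_sign (range n) (fun i => f (i + 1)) (by
    intro i hi
    rw [mem_range] at hi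
    exact hf _ (by omega) (by omega))
  rw [card_range] at h1
  set P := ∏ i ∈ range n, f (i + 1)
  have hP : P = 1 ∨ P = -1 := by
    have : (P - 1) * (P + 1) = 0 := by linear_combination h2
    rcases mul_eq_zero.1 this with h | h
    · left; omega
    · right; omega
  rcases hP with h | h <;> rw [h] at h1 <;> omega

/-- the congruence -/
theorem sixteen {f : ℕ → ℤ} {m n : ℕ} (hn : n = 2 * m + 1)
    (hf : ∀ i, 1 ≤ i → i ≤ n → f i * f i = 1)
    (h2 : ∀ i, f (2 * i) = f 2 * f i) (hm : f 2 = 1 ∨ (f 2 = -1 ∧ Even m)) :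
    (16 : ℤ) ∣ (∑ i ∈ range n, f (i + 1)) ^ 2
      + n * (2 * YY f n - (∑ i ∈ range n, f (i + 1)) ^ 2) := by
  obtain ⟨Y', hY, hd⟩ := YY_odd hf h2 m (by omega)
  have hp := sum_parity hf
  set H := ∑ i ∈ range n, f (i + 1) with hH
  obtain ⟨u, hu⟩ : ∃ u, H = 2 * u + 1 := by
    rw [hn] at hp
    push_cast at hp
    exact ⟨(H - 1) / 2, by omega⟩
  obtain ⟨v, hv⟩ : ∃ v, u * (u + 1) = 2 * v := by
    rcases Int.even_mul_succ_self u with ⟨r, hr⟩
    exact ⟨r, by rw [hr]; ring⟩
  have hH2 : H ^ 2 = 1 + 8 * v := by rw [hu]; linear_combination 4 * hv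
  rw [← hn] at hY
  rw [hY, hH2, hn]
  obtain ⟨r, hr⟩ := hd
  have hY' : Y' = m ^ 2 + m * (f 2 - 1) + 4 * r := by linear_combination hr
  obtain ⟨s, hs⟩ : ∃ s : ℤ, (m : ℤ) * (m + 1) = 2 * s := by
    rcases Int.even_mul_succ_self (m : ℤ) with ⟨r, hr⟩
    exact ⟨r, by rw [hr]; ring⟩
  rcases hm with h | ⟨h, l, hl⟩
  · rw [h] at hY'
    rw [hY']
    push_cast
    refine ⟨m * s - m * v + r * (2 * m + 1), ?_⟩
    linear_combination (8 * (m : ℤ)) * hs
  · rw [h] at hY'
    rw [hY']
    push_cast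
    have hl' : (m : ℤ) = 2 * l := by rw [hl]; push_cast; ring
    rw [hl']
    refine ⟨4 * l ^ 3 + 2 * l ^ 2 - 4 * l ^ 2 - l  + r * (4 * l + 1) - 2 * l * v + 0, ?_⟩
    ring

end Pool.Agent.Q23.HS
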