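import Pool.Agent.Q23.LD.Sq

/-!
# Matrices of Legendre symbols of sums and differences over a half range
-/

set_option autoImplicit false

namespace Pool.Agent.Q23.HS

open Finset Matrix Pool.Agent.Q23.LD

set_option linter.unusedSectionVars false
set_option linter.unusedVariables false

variable {p : ℕ} [Fact p.Prime]

lemma ch_zero : ch p 0 = 0 := by
  rw [ch]; exact quadraticChar_zero

lemma ch_inv (a : ZMod p) : ch p a⁻¹ = ch p a := by
  by_cases ha : a = 0
  · rw [ha, _root_.inv_zero]
  have h1 : ch p a⁻¹ * ch p a = 1 := by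
    rw [← ch_mul, inv_mul_cancel₀ ha, ch_one]
  have h2 := ch_sq ha
  have h3 : ch p a ≠ 0 := by
    intro h; rw [h] at h2; norm_num at h2
  exact mul_right_cancel₀ h3 (h1.trans h2.symm)

lemma sum_ch (hp : p ≠ 2) : ∑ a : ZMod p, ch p a = 0 :=
  quadraticChar_sum_zero (F := ZMod p) (by rw [ZMod.ringChar_zmod_n]; exact hp)

/-- the autocorrelation of the quadratic character -/
lemma corr (hp : p ≠ 2) (c : ZMod p) :
    ∑ u : ZMod p, ch p u * ch p (u + c) = if c = 0 then (p : ℤ) - 1 else -1 := by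
  classical
  rw [← Finset.add_sum_erase univ _ (mem_univ (0 : ZMod p)), ch_zero, zero_mul, zero_add]
  have h1 : ∀ u ∈ univ.erase (0 : ZMod p), ch p u * ch p (u + c) = ch p (1 + c * u⁻¹) := by
    intro u hu
    have hu0 : u ≠ 0 := (mem_erase.1 hu).1
    rw [← ch_mul]
    have : u * (u + c) = u * u * (1 + c * u⁻¹) := by
      field_simp
    rw [this, ch_mul, ch_mul, ch_sq hu0, one_mul]
  rw [Finset.sum_congr rfl h1]
  split_ifs with hc
  · rw [hc]
    simp only [zero_mul, add_zero, ch_one]
    rw [Finset.sum_const, Finset.card_erase_of_mem (mem_univ _), Finset.card_univ, ZMod.card,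
      nsmul_eq_mul, mul_one, Nat.cast_sub (Fact.out : p.Prime).one_lt.le]
    simp
  · have h2 : ∑ u ∈ univ.erase (0 : ZMod p), ch p (1 + c * u⁻¹)
        = ∑ v ∈ univ.erase (1 : ZMod p), ch p v := by
      refine Finset.sum_bij' (fun u _ => 1 + c * u⁻¹) (fun v _ => c * (v - 1)⁻¹) ?_ ?_ ?_ ?_ ?_
      · intro u hu
        have hu0 : u ≠ 0 := (mem_erase.1 hu).1
        rw [mem_erase]
        refine ⟨?_, mem_univ _⟩
        intro h
        have : c * u⁻¹ = 0 := by linear_combination h
        rcases mul_eq_zero.1 this with h3 | h3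
        · exact hc h3
        · exact hu0 (inv_eq_zero.1 h3)
      · intro v hv
        have hv0 : v ≠ 1 := (mem_erase.1 hv).1
        rw [mem_erase]
        exact ⟨mul_ne_zero hc (inv_ne_zero (sub_ne_zero.2 hv0)), mem_univ _⟩
      · intro u hu
        have hu0 : u ≠ 0 := (mem_erase.1 hu).1
        field_simp
        rw [add_sub_cancel_left]
        field_simp
      · intro v hv
        have hv0 : v - 1 ≠ 0 := sub_ne_zero.2 (mem_erase.1 hv).1
        field_simp
        ring
      · intro u hu; rfl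
    rw [h2]
    have h3 := Finset.add_sum_erase univ (fun v => ch p v) (mem_univ (1 : ZMod p))
    rw [sum_ch hp, ch_one] at h3
    linarith

/-- the index `j ↦ j + 1` modulo `p` -/
def ix (p n : ℕ) (j : Fin n) : ZMod p := ((j : ℕ) : ZMod p) + 1

lemma ix_eq (p n : ℕ) (j : Fin n) : ix p n j = (((j : ℕ) + 1 : ℕ) : ZMod p) := by
  rw [ix]; push_cast; rfl

lemma ix_ne {n : ℕ} (hp : p = 2 * n + 1) (j : Fin n) : ix p n j ≠ 0 := by
  rw [ix_eq, Ne, ZMod.natCast_eq_zero_iff]
  intro h
  have := Nat.le_of_dvd (by omega) h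
  have := j.2
  omega

lemma ix_inj {n : ℕ} (hp : p = 2 * n + 1) {j k : Fin n} : ix p n j = ix p n k ↔ j = k := by
  constructor
  · intro h
    rw [ix_eq, ix_eq, ZMod.natCast_eq_natCast_iff'] at h
    have := j.2; have := k.2
    rw [Nat.mod_eq_of_lt (by omega), Nat.mod_eq_of_lt (by omega)] at h
    apply Fin.ext; omega
  · rintro rfl; rfl

lemma ix_add_ne {n : ℕ} (hp : p = 2 * n + 1) (j k : Fin n) : ix p n j + ix p n k ≠ 0 := by
  rw [ix_eq, ix_eq, ← Nat.cast_add, Ne, ZMod.natCast_eq_zero_iff]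
  intro h
  have := Nat.le_of_dvd (by omega) h
  have := j.2; have := k.2
  omega

/-- folding a sum over all residues -/
lemma sum_fold {n : ℕ} (hp : p = 2 * n + 1) {M : Type*} [AddCommMonoid M] (f : ZMod p → M) :
    ∑ u : ZMod p, f u = f 0 + ∑ k : Fin n, (f (ix p n k) + f (-ix p n k)) := by
  classical
  rw [Finset.sum_add_distrib]
  have h1 : ∑ k : Fin n, f (ix p n k) = ∑ u ∈ univ.image (ix p n), f u := by
    rw [Finset.sum_image]
    intro a _ b _ h
    exact (ix_inj hp).1 h
  have h2 : ∑ k : Fin n, f (-ix p n k) = ∑ u ∈ univ.image (fun k => -ix p n k), f u := by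
    rw [Finset.sum_image]
    intro a _ b _ h
    exact (ix_inj hp).1 (neg_injective h)
  have hd : Disjoint (univ.image (ix p n)) (univ.image (fun k => -ix p n k)) := by
    rw [Finset.disjoint_left]
    intro u hu hv
    obtain ⟨j, _, hj⟩ := mem_image.1 hu
    obtain ⟨k, _, hk⟩ := mem_image.1 hv
    apply ix_add_ne hp j k
    rw [hj, ← hk]; ring
  rw [h1, h2, ← Finset.sum_union hd]
  have h0 : (0 : ZMod p) ∉ univ.image (ix p n) ∪ univ.image (fun k => -ix p n k) := by
    intro h
    rcases mem_union.1 h with h | h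
    · obtain ⟨j, _, hj⟩ := mem_image.1 h
      exact ix_ne hp j hj
    · obtain ⟨j, _, hj⟩ := mem_image.1 h
      exact ix_ne hp j (neg_eq_zero.1 hj)
  have h3 : (univ : Finset (ZMod p)) = insert 0 (univ.image (ix p n) ∪ univ.image (fun k => -ix p n k)) := by
    symm
    apply Finset.eq_univ_of_card
    rw [Finset.card_insert_of_notMem h0, Finset.card_union_of_disjoint hd,
      Finset.card_image_of_injective _ (fun a b h => (ix_inj hp).1 h),
      Finset.card_image_of_injective _ (fun a b h => (ix_inj hp).1 (neg_injective h)),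
      Finset.card_univ, Fintype.card_fin, ZMod.card]
    omega
  rw [h3, Finset.sum_insert h0]

lemma ch_neg' (a : ZMod p) : ch p (-a) = ch p (-1) * ch p a := by
  rw [← ch_mul, neg_one_mul]

lemma ch_m1_sq : ch p (-1) * ch p (-1) = 1 := ch_sq (neg_ne_zero.2 one_ne_zero)

/-- sums of symbols -/
noncomputable def SS (p n : ℕ) [Fact p.Prime] : Matrix (Fin n) (Fin n) ℤ :=
  Matrix.of fun j k => ch p (ix p n j + ix p n k) + ch p (ix p n j - ix p n k)

/-- differences of symbols -/
noncomputable def DD (p n : ℕ) [Fact p.Prime] : Matrix (Fin n) (Fin n) ℤ :=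
  Matrix.of fun j k => ch p (ix p n j + ix p n k) - ch p (ix p n j - ix p n k)

/-- the vector of the symbols -/
noncomputable def bb (p n : ℕ) [Fact p.Prime] (j : Fin n) : ℤ := ch p (ix p n j)

lemma bb_sq {n : ℕ} (hp : p = 2 * n + 1) (j : Fin n) : bb p n j * bb p n j = 1 :=
  ch_sq (ix_ne hp j)

lemma odd_p {n : ℕ} (hp : p = 2 * n + 1) : p ≠ 2 := by omega

lemma sub_mul_corr {n : ℕ} (hp : p = 2 * n + 1) (a b : ZMod p) :
    ∑ u : ZMod p, ch p (a + u) * ch p (b + u) = if a = b then (p : ℤ) - 1 else -1 := by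
  have h1 : ∑ u : ZMod p, ch p (a + u) * ch p (b + u)
      = ∑ u : ZMod p, ch p u * ch p (u + (b - a)) := by
    apply Fintype.sum_equiv (Equiv.addLeft a)
    intro u
    rw [Equiv.coe_addLeft]
    congr 2; ring
  rw [h1, corr (odd_p hp)]
  by_cases hab : a = b
  · rw [if_pos hab, if_pos (by rw [hab]; ring)]
  · rw [if_neg hab, if_neg]
    intro h; exact hab (sub_eq_zero.1 h).symm

lemma add_mul_corr {n : ℕ} (hp : p = 2 * n + 1) (a b : ZMod p) :
    ∑ u : ZMod p, ch p (a + u) * ch p (b - u) = ch p (-1) * if a = -b then (p : ℤ) - 1 else -1 := by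
  rw [← sub_mul_corr hp, Finset.mul_sum]
  apply Finset.sum_congr rfl
  intro u _
  have : b - u = -(-b + u) := by ring
  rw [this, ch_neg']; ring

lemma SS_mul_tr {n : ℕ} (hp : p = 2 * n + 1) (j l : Fin n) :
    (SS p n * (SS p n)ᵀ) j l = (if j = l then (p : ℤ) else 0) - 1 - ch p (-1)
      - 2 * bb p n j * bb p n l := by
  rw [Matrix.mul_apply]
  have h := sum_fold hp (fun u => ch p (ix p n j + u) * ch p (ix p n l + u)
    + ch p (ix p n j + u) * ch p (ix p n l - u))
  simp only [Finset.sum_add_distrib] at h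
  have hne : ¬ (ix p n j = -ix p n l) := fun h => ix_add_ne hp j l (by rw [h]; ring)
  rw [sub_mul_corr hp, add_mul_corr hp, if_neg hne] at h
  simp only [add_zero, sub_zero, sub_neg_eq_add, ← sub_eq_add_neg] at h
  have h2 : ∑ k, SS p n j k * (SS p n)ᵀ k l =
      ∑ x, ch p (ix p n j + ix p n x) * ch p (ix p n l + ix p n x) +
              ∑ x, ch p (ix p n j + ix p n x) * ch p (ix p n l - ix p n x) +
            (∑ x, ch p (ix p n j - ix p n x) * ch p (ix p n l - ix p n x) +
              ∑ x, ch p (ix p n j - ix p n x) * ch p (ix p n l + ix p n x)) := by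
    simp only [← Finset.sum_add_distrib]
    apply Finset.sum_congr rfl
    intro k _
    rw [Matrix.transpose_apply, SS, Matrix.of_apply, Matrix.of_apply]
    ring
  rw [h2]
  simp only [ix_inj hp] at h
  unfold bb
  split_ifs at h ⊢ <;> linarith

lemma DD_mul_tr {n : ℕ} (hp : p = 2 * n + 1) (j l : Fin n) :
    (DD p n * (DD p n)ᵀ) j l = (if j = l then (p : ℤ) else 0) - 1 + ch p (-1) := by
  rw [Matrix.mul_apply]
  have h := sum_fold hp (fun u => ch p (ix p n j + u) * ch p (ix p n l + u)
    - ch p (ix p n j + u) * ch p (ix p n l - u))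
  simp only [Finset.sum_sub_distrib, Finset.sum_add_distrib] at h
  have hne : ¬ (ix p n j = -ix p n l) := fun h => ix_add_ne hp j l (by rw [h]; ring)
  rw [sub_mul_corr hp, add_mul_corr hp, if_neg hne] at h
  simp only [add_zero, sub_zero, sub_neg_eq_add, ← sub_eq_add_neg] at h
  have h2 : ∑ k, DD p n j k * (DD p n)ᵀ k l =
      ∑ x, ch p (ix p n j + ix p n x) * ch p (ix p n l + ix p n x) -
              ∑ x, ch p (ix p n j + ix p n x) * ch p (ix p n l - ix p n x) +
            (∑ x, ch p (ix p n j - ix p n x) * ch p (ix p n l - ix p n x) -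
              ∑ x, ch p (ix p n j - ix p n x) * ch p (ix p n l + ix p n x)) := by
    simp only [← Finset.sum_add_distrib, ← Finset.sum_sub_distrib]
    apply Finset.sum_congr rfl
    intro k _
    rw [Matrix.transpose_apply, DD, Matrix.of_apply, Matrix.of_apply]
    ring
  rw [h2]
  simp only [ix_inj hp] at h
  split_ifs at h ⊢ <;> linarith

lemma SS_row {n : ℕ} (hp : p = 2 * n + 1) (j : Fin n) : ∑ k, SS p n j k = - bb p n j := by
  have h := sum_fold hp (fun u => ch p (ix p n j + u))
  have h0 : ∑ u, ch p (ix p n j + u) = ∑ u, ch p u :=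
    Fintype.sum_equiv (Equiv.addLeft (ix p n j)) _ _ (fun u => rfl)
  rw [h0, sum_ch (odd_p hp)] at h
  simp only [add_zero, ← sub_eq_add_neg] at h
  unfold bb
  have h2 : ∑ k, SS p n j k = ∑ x, (ch p (ix p n j + ix p n x) + ch p (ix p n j - ix p n x)) := rfl
  rw [h2]; linarith

lemma SS_tr_bb {n : ℕ} (hp : p = 2 * n + 1) (j : Fin n) :
    ∑ k, (ch p (ix p n j + ix p n k) + ch p (-1) * ch p (ix p n j - ix p n k)) * bb p n k = -1 := by
  have h := sum_fold hp (fun u => ch p (ix p n j + u) * ch p u)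
  have h1 := sub_mul_corr hp (ix p n j) 0
  simp only [zero_add, if_neg (ix_ne hp j)] at h1
  rw [h1] at h
  simp only [ch_zero, mul_zero, zero_add, ← sub_eq_add_neg] at h
  rw [h]
  apply Finset.sum_congr rfl
  intro k _
  rw [ch_neg' (ix p n k)]
  unfold bb
  ring

lemma sum_bb {n : ℕ} (hp : p = 2 * n + 1) (h1 : ch p (-1) = 1) : ∑ j, bb p n j = 0 := by
  have h := sum_fold hp (fun u => ch p u)
  rw [sum_ch (odd_p hp), ch_zero] at h
  simp only [ch_neg' (ix p n _), h1, one_mul, ← two_mul, ← Finset.mul_sum] at h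
  unfold bb
  linarith

lemma ix_double (p n : ℕ) (j : Fin n) : ix p n j + ix p n j = 2 * ix p n j := by ring

lemma trace_SS {n : ℕ} (hp : p = 2 * n + 1) : (SS p n).trace = ch p 2 * ∑ j, bb p n j := by
  rw [Matrix.trace, Finset.mul_sum]
  apply Finset.sum_congr rfl
  intro j _
  rw [Matrix.diag_apply, SS, Matrix.of_apply, sub_self, ch_zero, ix_double, ch_mul, add_zero]
  rfl

lemma trace_DD {n : ℕ} (hp : p = 2 * n + 1) : (DD p n).trace = ch p 2 * ∑ j, bb p n j := by
  rw [Matrix.trace, Finset.mul_sum]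
  apply Finset.sum_congr rfl
  intro j _
  rw [Matrix.diag_apply, DD, Matrix.of_apply, sub_self, ch_zero, ix_double, ch_mul, sub_zero]
  rfl

end Pool.Agent.Q23.HS
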