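import Mathlib

/-!
# Determinants of real symmetric matrices whose square is scalar
-/

set_option autoImplicit false

namespace Pool.Agent.Q23.HS

open Finset Matrix

theorem det_of_sq {n : ℕ} (T : Matrix (Fin n) (Fin n) ℝ) (hT : Tᵀ = T) (c : ℝ) (hc : 0 < c)
    (h : T * T = c • (1 : Matrix (Fin n) (Fin n) ℝ)) (htr : T.trace = 0) :
    ∃ m : ℕ, n = 2 * m ∧ T.det = (-c) ^ m := by
  classical
  have hH : T.IsHermitian := by
    rw [Matrix.IsHermitian, Matrix.conjTranspose_eq_transpose_of_trivial, hT]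
  have hev : ∀ i, hH.eigenvalues i = √c ∨ hH.eigenvalues i = -√c := by
    intro i
    have h1 := hH.mulVec_eigenvectorBasis i
    have h2 : T.mulVec (T.mulVec (hH.eigenvectorBasis i).ofLp)
        = (hH.eigenvalues i * hH.eigenvalues i) • (hH.eigenvectorBasis i).ofLp := by
      rw [h1, Matrix.mulVec_smul, h1, smul_smul]
    rw [Matrix.mulVec_mulVec, h, Matrix.smul_mulVec, Matrix.one_mulVec] at h2
    have h3 : (hH.eigenvectorBasis i).ofLp ≠ 0 := by
      intro h4
      have h5 := hH.eigenvectorBasis.orthonormal.ne_zero i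
      apply h5
      ext j
      rw [h4]; rfl
    have h4 : (hH.eigenvalues i * hH.eigenvalues i - c) • (hH.eigenvectorBasis i).ofLp = 0 := by
      rw [sub_smul, ← h2, sub_self]
    rcases smul_eq_zero.1 h4 with h5 | h5
    · have h6 : (hH.eigenvalues i - √c) * (hH.eigenvalues i + √c) = 0 := by
        have := Real.mul_self_sqrt hc.le
        linear_combination h5 + this * (-1)
      rcases mul_eq_zero.1 h6 with h7 | h7
      · left; linarith
      · right; linarith
    · exact absurd h5 h3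
  have hs : 0 < √c := Real.sqrt_pos.2 hc
  set P := univ.filter (fun i => hH.eigenvalues i = √c) with hP
  set N := univ.filter (fun i => ¬ hH.eigenvalues i = √c) with hN
  have hcard : P.card + N.card = n := by
    rw [hP, hN, Finset.card_filter_add_card_filter_not, Finset.card_univ, Fintype.card_fin]
  have hNv : ∀ i ∈ N, hH.eigenvalues i = -√c := by
    intro i hi
    rcases hev i with h1 | h1
    · exact absurd h1 (mem_filter.1 hi).2
    · exact h1
  have htr' := hH.trace_eq_sum_eigenvalues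
  rw [htr, ← Finset.sum_filter_add_sum_filter_not univ (fun i => hH.eigenvalues i = √c)] at htr'
  have hPs : ∑ i ∈ P, ((hH.eigenvalues i : ℝ) : ℝ) = ∑ i ∈ P, √c :=
    Finset.sum_congr rfl (fun i hi => (mem_filter.1 hi).2)
  have hNs : ∑ i ∈ N, ((hH.eigenvalues i : ℝ) : ℝ) = ∑ i ∈ N, (-√c) :=
    Finset.sum_congr rfl (fun i hi => hNv i hi)
  have htr' : 0 = ∑ i ∈ P, ((hH.eigenvalues i : ℝ) : ℝ) + ∑ i ∈ N, ((hH.eigenvalues i : ℝ) : ℝ) := htr'
  rw [hPs, hNs] at htr'
  rw [Finset.sum_const, Finset.sum_const, nsmul_eq_mul, nsmul_eq_mul] at htr'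
  have hPN : P.card = N.card := by
    have h1 : ((P.card : ℝ) - N.card) * √c = 0 := by
      linarith
    rcases mul_eq_zero.1 h1 with h2 | h2
    · exact_mod_cast sub_eq_zero.1 h2
    · exact absurd h2 hs.ne'
  refine ⟨P.card, by omega, ?_⟩
  have hdet := hH.det_eq_prod_eigenvalues
  rw [← Finset.prod_filter_mul_prod_filter_not univ (fun i => hH.eigenvalues i = √c)] at hdet
  have hPs : ∏ i ∈ P, ((hH.eigenvalues i : ℝ) : ℝ) = ∏ i ∈ P, √c :=
    Finset.prod_congr rfl (fun i hi => (mem_filter.1 hi).2)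
  have hNs : ∏ i ∈ N, ((hH.eigenvalues i : ℝ) : ℝ) = ∏ i ∈ N, (-√c) :=
    Finset.prod_congr rfl (fun i hi => hNv i hi)
  have hdet : T.det = (∏ i ∈ P, ((hH.eigenvalues i : ℝ) : ℝ)) * ∏ i ∈ N, ((hH.eigenvalues i : ℝ) : ℝ) := hdet
  rw [hPs, hNs, Finset.prod_const, Finset.prod_const, ← hPN, ← mul_pow] at hdet
  rw [hdet]
  congr 1
  have := Real.mul_self_sqrt hc.le
  linear_combination -this

end Pool.Agent.Q23.HS
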