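import Pool.Agent.Q23.HS.Core
import Pool.Agent.Q23.HS.Herm

/-!
# The case `p = 1 mod 4`
-/

set_option autoImplicit false
set_option linter.unusedSectionVars false
set_option linter.unusedVariables false

namespace Pool.Agent.Q23.HS

open Finset Matrix Pool.Agent.Q23.LD

variable {p : ℕ} [Fact p.Prime]

lemma ch_sub_comm (h1 : ch p (-1) = 1) (a b : ZMod p) : ch p (a - b) = ch p (b - a) := by
  have : a - b = -(b - a) := by ring
  rw [this, ch_neg', h1, one_mul]

lemma DD_symm {n : ℕ} (h1 : ch p (-1) = 1) : (DD p n)ᵀ = DD p n := by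
  ext j k
  rw [Matrix.transpose_apply, DD, Matrix.of_apply, Matrix.of_apply, ch_sub_comm h1,
    add_comm (ix p n k)]

lemma SS_symm {n : ℕ} (h1 : ch p (-1) = 1) : (SS p n)ᵀ = SS p n := by
  ext j k
  rw [Matrix.transpose_apply, SS, Matrix.of_apply, Matrix.of_apply, ch_sub_comm h1,
    add_comm (ix p n k)]

theorem det_DD {n : ℕ} (hp : p = 2 * n + 1) (h1 : ch p (-1) = 1) :
    ∃ m, n = 2 * m ∧ (DD p n).det = (-(p : ℤ)) ^ m := by
  have hp0 : 0 < p := (Fact.out : p.Prime).pos
  have hS : ((DD p n).map (Int.cast : ℤ → ℝ))ᵀ = (DD p n).map (Int.cast : ℤ → ℝ) := by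
    rw [← Matrix.transpose_map, DD_symm h1]
  have hm : DD p n * DD p n = (p : ℤ) • (1 : Matrix (Fin n) (Fin n) ℤ) := by
    ext j l
    have h := DD_mul_tr hp j l
    rw [DD_symm h1, h1] at h
    rw [h, Matrix.smul_apply, Matrix.one_apply]
    split_ifs <;> simp
  have hm' : (DD p n).map (Int.cast : ℤ → ℝ) * (DD p n).map (Int.cast : ℤ → ℝ)
      = (p : ℝ) • (1 : Matrix (Fin n) (Fin n) ℝ) := by
    have h := congrArg (fun M : Matrix (Fin n) (Fin n) ℤ => M.map (Int.castRingHom ℝ)) hm
    simp only [Matrix.map_mul] at h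
    have h2 : ((p : ℤ) • (1 : Matrix (Fin n) (Fin n) ℤ)).map (Int.castRingHom ℝ)
        = (p : ℝ) • (1 : Matrix (Fin n) (Fin n) ℝ) := by
      ext j l
      rw [Matrix.map_apply, Matrix.smul_apply, Matrix.smul_apply, Matrix.one_apply, Matrix.one_apply]
      split_ifs <;> simp
    rw [h2] at h
    exact h
  have htr : ((DD p n).map (Int.cast : ℤ → ℝ)).trace = 0 := by
    have h := trace_DD hp
    rw [sum_bb hp h1, mul_zero] at h
    have h2 := congrArg (Int.cast : ℤ → ℝ) h
    rw [Matrix.trace] at h2 ⊢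
    push_cast at h2
    exact h2
  obtain ⟨m, hn, hd⟩ := det_of_sq _ hS (p : ℝ) (by exact_mod_cast hp0) hm' htr
  refine ⟨m, hn, ?_⟩
  have h3 : ((DD p n).map (Int.cast : ℤ → ℝ)).det = ((DD p n).det : ℝ) := by
    have := (Int.castRingHom ℝ).map_det (DD p n)
    rw [RingHom.mapMatrix_apply] at this
    exact this.symm
  rw [h3] at hd
  exact_mod_cast hd

/-- the matrix with four parameters -/
noncomputable def MM4 (p n : ℕ) [Fact p.Prime] {R : Type*} [CommRing R] (x y z w : R) :
    Matrix (Fin n) (Fin n) R :=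
  Matrix.of fun j k => x + (SS p n j k : R) + (bb p n j : R) * y + (bb p n k : R) * z
    + (bb p n j : R) * (bb p n k : R) * w

lemma map_MM4 (p n : ℕ) [Fact p.Prime] {R S : Type*} [CommRing R] [CommRing S] (f : R →+* S)
    (x y z w : R) : f (MM4 p n x y z w).det = (MM4 p n (f x) (f y) (f z) (f w)).det := by
  rw [f.map_det]
  congr 1
  ext j k
  simp [MM4]

theorem det_MM4_real {n : ℕ} (hp : p = 2 * n + 1) (h1 : ch p (-1) = 1) :
    ∃ m, n = 2 * m ∧ ∀ x y z w : ℝ, (p : ℝ) * (MM4 p n x y z w).det =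
      (-(p : ℝ)) ^ m * ((1 - n * y) * (1 - n * z) - n ^ 2 * w * x) := by
  classical
  have hp0 : (0 : ℝ) < p := by exact_mod_cast (Fact.out : p.Prime).pos
  have hn0 : 0 < n := by
    have := (Fact.out : p.Prime).two_le
    omega
  have hn : (0 : ℝ) < n := by exact_mod_cast hn0
  set q : ℝ := √(p : ℝ) with hq
  have hqq : q * q = p := Real.mul_self_sqrt hp0.le
  have hq0 : 0 < q := Real.sqrt_pos.2 hp0
  set c : ℝ := (q - 1) / n with hc
  have hcn : c * n = q - 1 := by rw [hc]; field_simp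
  have hpn : (p : ℝ) = 2 * n + 1 := by exact_mod_cast hp
  set b : Fin n → ℝ := fun j => (bb p n j : ℝ) with hb
  set S : Matrix (Fin n) (Fin n) ℝ := (SS p n).map (Int.cast : ℤ → ℝ) with hS
  have hbb : ∀ j, b j * b j = 1 := by
    intro j
    have := congrArg (Int.cast : ℤ → ℝ) (bb_sq hp j)
    push_cast at this
    exact this
  have hsb : ∑ j, b j = 0 := by
    have := congrArg (Int.cast : ℤ → ℝ) (sum_bb hp h1)
    push_cast at this
    exact this
  have hsbb : ∑ j, b j * b j = n := by
    simp [hbb]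
  have hSa : ∀ j, ∑ k, S j k = - b j := by
    intro j
    have := congrArg (Int.cast : ℤ → ℝ) (SS_row hp j)
    push_cast at this
    exact this
  have hSb : ∀ j, ∑ k, S j k * b k = - 1 := by
    intro j
    have := congrArg (Int.cast : ℤ → ℝ) (SS_tr_bb hp j)
    rw [h1] at this
    push_cast at this
    simp only [one_mul] at this
    rw [← this]
    apply Finset.sum_congr rfl
    intro k _
    rw [hS, hb, Matrix.map_apply, SS, Matrix.of_apply]
    push_cast
    ring
  have hSs : ∀ j k, S k j = S j k := by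
    intro j k
    have := congrFun (congrFun (SS_symm (p := p) (n := n) h1) j) k
    rw [Matrix.transpose_apply] at this
    rw [hS, Matrix.map_apply, Matrix.map_apply, this]
  have hSS : ∀ j l, ∑ k, S j k * S k l = (if j = l then (p : ℝ) else 0) - 2 - 2 * b j * b l := by
    intro j l
    have h := SS_mul_tr hp j l
    rw [SS_symm h1, h1, Matrix.mul_apply] at h
    have h2 := congrArg (Int.cast : ℤ → ℝ) h
    push_cast at h2
    have h3 : ∑ k, S j k * S k l = ∑ k, ((SS p n j k : ℤ) : ℝ) * ((SS p n k l : ℤ) : ℝ) := rfl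
    rw [h3, h2, hb]
    split_ifs <;> ring
  set T : Matrix (Fin n) (Fin n) ℝ := Matrix.of fun j k => S j k - c * (b j + b k) with hT
  have hTT : Tᵀ = T := by
    ext j k
    rw [Matrix.transpose_apply, hT, Matrix.of_apply, Matrix.of_apply, hSs]
    ring
  have hT2 : T * T = (p : ℝ) • (1 : Matrix (Fin n) (Fin n) ℝ) := by
    ext j l
    rw [Matrix.mul_apply, Matrix.smul_apply, Matrix.one_apply]
    have e1 : ∑ k, T j k * T k l = ∑ k, S j k * S k l - c * b l * ∑ k, S j k
        - c * ∑ k, S j k * b k - c * b j * ∑ k, S l k - c * ∑ k, S l k * b k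
        + c * c * (b j * b l * n + (b j + b l) * ∑ k, b k + ∑ k, b k * b k) := by
      have e2 : (b j * b l * n : ℝ) = ∑ k : Fin n, b j * b l := by simp [mul_comm]
      rw [e2]
      simp only [Finset.mul_sum, ← Finset.sum_add_distrib, ← Finset.sum_sub_distrib]
      apply Finset.sum_congr rfl
      intro k _
      rw [hT, Matrix.of_apply, Matrix.of_apply, hSs k l]
      ring
    rw [e1, hSS, hSa, hSb, hSa, hSb, hsb, hsbb]
    have e3 : c * c * n = c * (q - 1) := by rw [mul_assoc, hcn]
    have e4 : 2 * c + c * (q - 1) * 1 + c = c * (q + 1) + c + c  - c + 0 := by ring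
    have e5 : c * (q + 1) = 2 := by
      have h5 : c * n * (q + 1) = 2 * n := by
        rw [hcn]; linear_combination hqq + hpn
      have h6 : (c * (q + 1) - 2) * n = 0 := by linear_combination h5
      rcases mul_eq_zero.1 h6 with h7 | h7
      · linarith
      · exact absurd h7 hn.ne'
    split_ifs with hjl
    · rw [smul_eq_mul, mul_one]
      linear_combination (b j * b l + 1) * e3 + (b j * b l + 1) * e5
    · rw [smul_eq_mul, mul_zero]
      linear_combination (b j * b l + 1) * e3 + (b j * b l + 1) * e5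
  have htr : T.trace = 0 := by
    have h := trace_SS hp
    rw [sum_bb hp h1, mul_zero] at h
    have h2 := congrArg (Int.cast : ℤ → ℝ) h
    rw [Matrix.trace] at h2 ⊢
    push_cast at h2
    have h3 : ∑ i, T.diag i = ∑ i, ((SS p n i i : ℤ) : ℝ) - 2 * c * ∑ i, b i := by
      rw [Finset.mul_sum, ← Finset.sum_sub_distrib]
      apply Finset.sum_congr rfl
      intro i _
      rw [Matrix.diag_apply, hT, Matrix.of_apply, hS, Matrix.map_apply]
      ring
    rw [h3, hsb, mul_zero, sub_zero]
    exact h2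
  obtain ⟨m, hm, hd⟩ := det_of_sq T hTT (p : ℝ) hp0 hT2 htr
  refine ⟨m, hm, ?_⟩
  intro x y z w
  set U : Matrix (Fin n) (Fin 2) ℝ := Matrix.of fun j i => if i = 0 then 1 else b j with hU
  set V : Matrix (Fin 2) (Fin n) ℝ := Matrix.of fun i k =>
    if i = 0 then x + (z + c) * b k else (y + c) + w * b k with hV
  have hM : MM4 p n x y z w = T + U * V := by
    ext j k
    rw [Matrix.add_apply, Matrix.mul_apply, Fin.sum_univ_two, MM4, Matrix.of_apply, hT, hU, hV]
    simp only [Matrix.of_apply, hS, Matrix.map_apply, hb, if_true, one_ne_zero, if_false]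
    ring
  have hTu : IsUnit T.det := by
    rw [hd]
    exact (isUnit_iff_ne_zero.2 (neg_ne_zero.2 hp0.ne')).pow m
  have hTinv : T⁻¹ = (p : ℝ)⁻¹ • T := by
    apply Matrix.inv_eq_right_inv
    rw [Matrix.mul_smul, hT2, smul_smul, inv_mul_cancel₀ hp0.ne', one_smul]
  have hTU : ∀ k i, (T * U) k i = if i = 0 then - q * b k else - q := by
    intro k i
    rw [Matrix.mul_apply]
    fin_cases i
    · simp only [Fin.zero_eta, if_true]
      have : ∑ j, T k j * U j 0 = ∑ j, S k j - c * b k * n - c * ∑ j, b j := by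
        have e2 : (c * b k * n : ℝ) = ∑ j : Fin n, c * b k := by simp [mul_comm]
        rw [e2, Finset.mul_sum, ← Finset.sum_sub_distrib, ← Finset.sum_sub_distrib]
        apply Finset.sum_congr rfl
        intro j _
        rw [hT, hU, Matrix.of_apply, Matrix.of_apply, if_pos rfl]
        ring
      rw [this, hSa, hsb]
      linear_combination - b k * hcn
    · simp only [Fin.mk_one, one_ne_zero, if_false]
      have : ∑ j, T k j * U j 1 = ∑ j, S k j * b j - c * b k * ∑ j, b j - c * ∑ j, b j * b j := by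
        rw [Finset.mul_sum, Finset.mul_sum, ← Finset.sum_sub_distrib, ← Finset.sum_sub_distrib]
        apply Finset.sum_congr rfl
        intro j _
        rw [hT, hU, Matrix.of_apply, Matrix.of_apply, if_neg one_ne_zero]
        ring
      rw [this, hSb, hsb, hsbb]
      linear_combination - hcn
  have hVT : V * (T⁻¹) * U = !![(p : ℝ)⁻¹ * (-q * ((z + c) * n)), (p : ℝ)⁻¹ * (-q * (x * n));
      (p : ℝ)⁻¹ * (-q * (w * n)), (p : ℝ)⁻¹ * (-q * ((y + c) * n))] := by
    rw [hTinv, Matrix.mul_smul, Matrix.smul_mul, Matrix.mul_assoc]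
    have h00 : ∀ i i', (V * (T * U)) i i' = ∑ k, V i k * (T * U) k i' := fun i i' =>
      Matrix.mul_apply
    have hn1 : ∑ k : Fin n, (1 : ℝ) = n := by simp
    ext i i'
    rw [Matrix.smul_apply, smul_eq_mul, h00]
    simp only [hTU]
    fin_cases i <;> fin_cases i' <;> simp [hV, -mul_eq_mul_left_iff]
    · congr 1
      rw [show ((z + c) * (n : ℝ)) = (z + c) * ∑ k, b k * b k + x * ∑ k, b k by
        rw [hsbb, hsb]; ring]
      rw [mul_add, Finset.mul_sum, Finset.mul_sum, Finset.mul_sum, Finset.mul_sum,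
        ← Finset.sum_add_distrib]
      apply Finset.sum_congr rfl
      intro k _; ring
    · congr 1
      rw [show (x * (n : ℝ)) = x * ∑ k : Fin n, (1 : ℝ) + (z + c) * ∑ k, b k by
        rw [hn1, hsb]; ring]
      rw [mul_add, Finset.mul_sum, Finset.mul_sum, Finset.mul_sum, Finset.mul_sum,
        ← Finset.sum_add_distrib]
      apply Finset.sum_congr rfl
      intro k _; ring
    · congr 1
      rw [show (w * (n : ℝ)) = w * ∑ k, b k * b k + (y + c) * ∑ k, b k by
        rw [hsbb, hsb]; ring]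
      rw [mul_add, Finset.mul_sum, Finset.mul_sum, Finset.mul_sum, Finset.mul_sum,
        ← Finset.sum_add_distrib]
      apply Finset.sum_congr rfl
      intro k _; ring
    · congr 1
      rw [show ((y + c) * (n : ℝ)) = (y + c) * ∑ k : Fin n, (1 : ℝ) + w * ∑ k, b k by
        rw [hn1, hsb]; ring]
      rw [mul_add, Finset.mul_sum, Finset.mul_sum, Finset.mul_sum, Finset.mul_sum,
        ← Finset.sum_add_distrib]
      apply Finset.sum_congr rfl
      intro k _; ring
  rw [hM, Matrix.det_add_mul U V hTu, hVT, hd]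
  rw [Matrix.det_fin_two]
  simp only [Matrix.add_apply, Matrix.of_apply, Matrix.cons_val', Matrix.cons_val_zero,
    Matrix.cons_val_one, Matrix.one_apply, if_true, one_ne_zero, if_false, zero_ne_one]
  have hpi : (p : ℝ)⁻¹ = q⁻¹ * q⁻¹ := by rw [← hqq, mul_inv]
  have hq1 : q⁻¹ * q = 1 := inv_mul_cancel₀ hq0.ne'
  have e1 : 1 + (p : ℝ)⁻¹ * (-q * ((z + c) * n)) = q⁻¹ * (1 - n * z) := by
    rw [hpi]
    linear_combination (-q⁻¹ * (z + c) * n) * hq1 - q⁻¹ * hcn - hq1
  have e2 : 1 + (p : ℝ)⁻¹ * (-q * ((y + c) * n)) = q⁻¹ * (1 - n * y) := by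
    rw [hpi]
    linear_combination (-q⁻¹ * (y + c) * n) * hq1 - q⁻¹ * hcn - hq1
  have e3 : 0 + (p : ℝ)⁻¹ * (-q * (x * n)) = - q⁻¹ * (n * x) := by
    rw [hpi]
    linear_combination (-q⁻¹ * x * n) * hq1
  have e4 : 0 + (p : ℝ)⁻¹ * (-q * (w * n)) = - q⁻¹ * (n * w) := by
    rw [hpi]
    linear_combination (-q⁻¹ * w * n) * hq1
  rw [e1, e2, e3, e4]
  have e5 : (p : ℝ) * (q⁻¹ * q⁻¹) = 1 := by rw [← hpi, mul_inv_cancel₀ hp0.ne']
  linear_combination (-(p : ℝ)) ^ m * ((1 - n * y) * (1 - n * z) - n ^ 2 * w * x) * e5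

end Pool.Agent.Q23.HS
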