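import Pool.Agent.Q23.HS.Trig
import Pool.Agent.Q23.HS.Comb
import Pool.Agent.Q23.HS.Poly

/-!
# Half range determinants of sums of symbols, `p = 3 mod 4`
-/

set_option autoImplicit false
set_option linter.unusedSectionVars false
set_option linter.unusedVariables false

namespace Pool.Agent.Q23.HS

open Finset Matrix
open Pool.Agent.Q23.LD

variable {p : ℕ} [Fact p.Prime]

/-- the sum of the symbols over the half range -/
noncomputable def HH (p n : ℕ) [Fact p.Prime] : ℤ := ∑ j, bb p n j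

/-- the mixed sum -/
noncomputable def WW (p n : ℕ) [Fact p.Prime] : ℤ := ∑ k, (∑ j, SS p n j k) * bb p n k

lemma SS_col_bb {n : ℕ} (hp : p = 2 * n + 1) (h4 : p % 4 = 3) (k : Fin n) :
    ∑ j, SS p n j k * bb p n j = -1 := by
  have h := SS_tr_bb hp k
  rw [← h]
  apply Finset.sum_congr rfl
  intro j _
  rw [SS, Matrix.of_apply, ch_m1 h4]
  have e : ix p n k - ix p n j = -(ix p n j - ix p n k) := by ring
  rw [e, ch_neg', ch_m1 h4, add_comm (ix p n k)]
  ring

/-- the inverse image of the vector of ones -/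
noncomputable def sv (p n : ℕ) [Fact p.Prime] (k : Fin n) : ℝ :=
  ((∑ j, SS p n j k : ℤ) - 2 * (HH p n : ℝ)) / p

lemma SS_sv {n : ℕ} (hp : p = 2 * n + 1) (h4 : p % 4 = 3) (j : Fin n) :
    ∑ k, (SS p n j k : ℝ) * sv p n k = 1 := by
  have hp0 : (p : ℝ) ≠ 0 := by exact_mod_cast (Fact.out : p.Prime).ne_zero
  have h1 : ∑ k, SS p n j k * (∑ l, SS p n l k) = ∑ l, (SS p n * (SS p n)ᵀ) j l := by
    simp only [Matrix.mul_apply, Finset.mul_sum, Matrix.transpose_apply]
    exact Finset.sum_comm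
  have h2 : ∑ l, (SS p n * (SS p n)ᵀ) j l = p - 2 * bb p n j * HH p n := by
    simp only [SS_mul_tr hp, ch_m1 h4]
    rw [HH, Finset.mul_sum, Finset.sum_sub_distrib]
    congr 1
    simp
  have h3 : ∑ k, SS p n j k = - bb p n j := SS_row hp j
  have h4 : ∑ k, (SS p n j k : ℝ) * sv p n k
      = (((∑ k, SS p n j k * (∑ l, SS p n l k) : ℤ) : ℝ)
        - 2 * (HH p n : ℝ) * ((∑ k, SS p n j k : ℤ) : ℝ)) / p := by
    unfold sv
    push_cast
    rw [Finset.mul_sum, ← Finset.sum_sub_distrib, Finset.sum_div]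
    apply Finset.sum_congr rfl
    intro k _
    ring
  rw [h4, h1, h2, h3]
  push_cast
  field_simp
  ring

lemma sum_sv {n : ℕ} (hp : p = 2 * n + 1) : ∑ k, sv p n k = - (HH p n : ℝ) := by
  have hp0 : (p : ℝ) ≠ 0 := by exact_mod_cast (Fact.out : p.Prime).ne_zero
  have hpn : (p : ℝ) = 2 * n + 1 := by exact_mod_cast hp
  have h1 : ∑ k, ∑ j, SS p n j k = - HH p n := by
    rw [Finset.sum_comm, HH, ← Finset.sum_neg_distrib]
    exact Finset.sum_congr rfl (fun j _ => SS_row hp j)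
  have h2 : ∑ k, sv p n k = (((∑ k, ∑ j, SS p n j k : ℤ) : ℝ) - 2 * (HH p n : ℝ) * n) / p := by
    unfold sv
    rw [← Finset.sum_div, Finset.sum_sub_distrib]
    push_cast
    simp
    ring
  rw [h2, h1, div_eq_iff hp0, hpn]
  push_cast
  ring

lemma sum_bb_sv {n : ℕ} : ∑ k, (bb p n k : ℝ) * sv p n k
    = ((WW p n : ℝ) - 2 * (HH p n : ℝ) ^ 2) / p := by
  unfold sv WW
  push_cast
  have h : (HH p n : ℝ) ^ 2 = ∑ k, (bb p n k : ℝ) * (HH p n : ℝ) := by
    rw [← Finset.sum_mul, sq]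
    congr 1
    rw [HH]; push_cast; rfl
  rw [h, Finset.mul_sum, ← Finset.sum_sub_distrib, Finset.sum_div]
  apply Finset.sum_congr rfl
  intro k _
  ring

theorem det_MM4_three_real {n : ℕ} (hp : p = 2 * n + 1) (h4 : p % 4 = 3) (x y z w : ℝ) :
    (p : ℝ) * (MM4 p n x y z w).det = ((SS p n).det : ℝ) *
      (p * (1 - n * y - HH p n * (w + x)) + (WW p n - 2 * HH p n ^ 2) * z
        + (HH p n ^ 2 + n * WW p n) * (x * w - y * z)) := by
  have hp0 : (p : ℝ) ≠ 0 := by exact_mod_cast (Fact.out : p.Prime).ne_zero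
  have hpn : (p : ℝ) = 2 * n + 1 := by exact_mod_cast hp
  have hH : ∑ k, (bb p n k : ℝ) = HH p n := by rw [HH]; push_cast; rfl
  have hSb : ∀ j, ∑ k, ((SS p n).map (Int.cast : ℤ → ℝ)) j k * (-1 : ℝ) = (bb p n j : ℝ) := by
    intro j
    have := congrArg (Int.cast : ℤ → ℝ) (SS_row hp j)
    push_cast at this
    rw [← Finset.sum_mul]
    simp only [Matrix.map_apply]
    rw [this]; ring
  have h := det_two ((SS p n).map (Int.cast : ℤ → ℝ)) (fun _ => (1 : ℝ)) (fun j => (bb p n j : ℝ))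
    (fun k => x + z * bb p n k) (fun k => y + w * bb p n k) (sv p n) (fun _ => (-1 : ℝ))
    (fun j => SS_sv hp h4 j) hSb (MM4 p n x y z w) (fun j k => by
      rw [MM4, Matrix.of_apply, Matrix.map_apply]; ring)
  rw [h, det_cast]
  have e1 : ∑ k, (x + z * (bb p n k : ℝ)) * sv p n k
      = x * ∑ k, sv p n k + z * ∑ k, (bb p n k : ℝ) * sv p n k := by
    rw [Finset.mul_sum, Finset.mul_sum, ← Finset.sum_add_distrib]
    exact Finset.sum_congr rfl (fun k _ => by ring)
  have e2 : ∑ k, (y + w * (bb p n k : ℝ)) * sv p n k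
      = y * ∑ k, sv p n k + w * ∑ k, (bb p n k : ℝ) * sv p n k := by
    rw [Finset.mul_sum, Finset.mul_sum, ← Finset.sum_add_distrib]
    exact Finset.sum_congr rfl (fun k _ => by ring)
  have e3 : ∀ u v : ℝ, ∑ k, (u + v * (bb p n k : ℝ)) * (-1) = -(u * n + v * HH p n) := by
    intro u v
    rw [← hH, ← Finset.sum_mul, Finset.sum_add_distrib, ← Finset.mul_sum]
    simp
    ring
  rw [e1, e2, e3, e3, sum_sv hp, sum_bb_sv]
  field_simp
  rw [hpn]
  ring

/-- the value of the determinant -/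
noncomputable def V3 (p n : ℕ) [Fact p.Prime] {R : Type*} [CommRing R] (x y z w : R) : R :=
  - ((∏ t, bb p n t : ℤ) : R) * (
      (p : R) ^ ((p - 3) / 4) * (1 - (n : R) * y - (HH p n : R) * (w + x)) + (p : R) ^ ((p - 7) / 4) *
      (((WW p n - 2 * HH p n ^ 2 : ℤ) : R) * z
        + ((HH p n ^ 2 + n * WW p n : ℤ) : R) * (x * w - y * z)))

lemma map_V3 (p n : ℕ) [Fact p.Prime] {R S : Type*} [CommRing R] [CommRing S] (f : R →+* S)
    (x y z w : R) : f (V3 p n x y z w) = V3 p n (f x) (f y) (f z) (f w) := by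
  unfold V3
  simp only [map_mul, map_sub, map_add, map_neg, map_pow, map_natCast, map_intCast, map_one]

theorem det_MM4_three {n : ℕ} (hp : p = 2 * n + 1) (h4 : p % 4 = 3) (h7 : 7 ≤ p)
    {R : Type*} [CommRing R] (x y z w : R) :
    (MM4 p n x y z w).det = V3 p n x y z w := by
  have hP : (MM4 p n (MvPolynomial.X 0 : MvPolynomial (Fin 4) ℤ) (MvPolynomial.X 1)
      (MvPolynomial.X 2) (MvPolynomial.X 3)).det = V3 p n (MvPolynomial.X 0) (MvPolynomial.X 1)
      (MvPolynomial.X 2) (MvPolynomial.X 3) := by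
    apply mv_ext
    intro v
    rw [map_MM4, map_V3]
    simp only [MvPolynomial.coe_eval₂Hom, MvPolynomial.eval₂_X]
    have h := det_MM4_three_real hp h4 (v 0) (v 1) (v 2) (v 3)
    have hp0 : (p : ℝ) ≠ 0 := by exact_mod_cast (Fact.out : p.Prime).ne_zero
    rw [det_SS_three hp h4] at h
    have e1 : (n - 1) / 2 = (p - 3) / 4 := by omega
    have e2 : (p - 3) / 4 = (p - 7) / 4 + 1 := by omega
    rw [e1] at h
    apply mul_left_cancel₀ hp0
    rw [h, V3, e2]
    push_cast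
    ring
  have h2 := congrArg (MvPolynomial.eval₂Hom (Int.castRingHom R) ![x, y, z, w]) hP
  rw [map_MM4, map_V3] at h2
  simp only [MvPolynomial.coe_eval₂Hom, MvPolynomial.eval₂_X] at h2
  exact h2

/-- bordered determinant -/
noncomputable def EE4 (p n : ℕ) [Fact p.Prime] {R : Type*} [CommRing R] (x y z w : R) :
    Matrix (Fin (n + 1)) (Fin (n + 1)) R :=
  Matrix.of fun j k => x + (ch p ((j : ℕ) + (k : ℕ)) : R) + (ch p ((j : ℕ) - (k : ℕ)) : R)
    + (ch p (j : ℕ) : R) * y + (ch p (k : ℕ) : R) * z + (ch p ((j : ℕ) * (k : ℕ)) : R) * w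

lemma map_EE4 (p n : ℕ) [Fact p.Prime] {R S : Type*} [CommRing R] [CommRing S] (f : R →+* S)
    (x y z w : R) : f (EE4 p n x y z w).det = (EE4 p n (f x) (f y) (f z) (f w)).det := by
  rw [f.map_det]
  congr 1
  ext j k
  simp [EE4]

end Pool.Agent.Q23.HS
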