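import Pool.Agent.Q23.CN.Gs
import Pool.Agent.Q23.HS.Core
import Mathlib.Analysis.SpecialFunctions.Trigonometric.Chebyshev.Basic

/-!
# The sign of the determinant of the sums of symbols, `p = 3 mod 4`
-/

set_option autoImplicit false
set_option linter.unusedSectionVars false
set_option linter.unusedVariables false

namespace Pool.Agent.Q23.HS

open Finset Matrix Polynomial
open Pool.Agent.Q23.LD

/-- a rank two update -/
theorem det_two {m : Type*} [Fintype m] [DecidableEq m] {K : Type*} [CommRing K] (S : Matrix m m K)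
    (u1 u2 v1 v2 s1 s2 : m → K)
    (h1 : ∀ j, ∑ k, S j k * s1 k = u1 j) (h2 : ∀ j, ∑ k, S j k * s2 k = u2 j) (M : Matrix m m K)
    (hM : ∀ j k, M j k = S j k + u1 j * v1 k + u2 j * v2 k) :
    M.det = S.det * ((1 + ∑ k, v1 k * s1 k) * (1 + ∑ k, v2 k * s2 k)
      - (∑ k, v1 k * s2 k) * (∑ k, v2 k * s1 k)) := by
  set W : Matrix m (Fin 2) K := Matrix.of fun j i => if i = 0 then s1 j else s2 j with hW
  set V : Matrix (Fin 2) m K := Matrix.of fun i k => if i = 0 then v1 k else v2 k with hV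
  have h3 : M = S * (1 + W * V) := by
    rw [Matrix.mul_add, Matrix.mul_one, ← Matrix.mul_assoc]
    ext j k
    rw [Matrix.add_apply, Matrix.mul_apply, Fin.sum_univ_two, hM]
    have e1 : (S * W) j 0 = u1 j := by rw [← h1, Matrix.mul_apply]; simp [hW]
    have e2 : (S * W) j 1 = u2 j := by rw [← h2, Matrix.mul_apply]; simp [hW]
    rw [e1, e2]
    simp [hV, add_assoc]
  rw [h3, Matrix.det_mul, Matrix.det_one_add_mul_comm]
  congr 1
  rw [Matrix.det_fin_two]
  have e : ∀ i i', (V * W) i i' = ∑ k, V i k * W k i' := fun i i' => Matrix.mul_apply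
  simp only [Matrix.add_apply, e, Matrix.one_apply_eq]
  rw [Matrix.one_apply_ne (by decide : (0 : Fin 2) ≠ 1), Matrix.one_apply_ne (by decide : (1 : Fin 2) ≠ 0)]
  simp [hV, hW]

/-- Vandermonde with polynomials -/
lemma sgn_vdm {n : ℕ} (v : Fin n → ℝ) (P : Fin n → ℝ[X]) (hd : ∀ i, (P i).natDegree = i)
    (hl : ∀ i, 0 < (P i).leadingCoeff) :
    ∃ α : ℝ, 0 < α ∧ (Matrix.of fun i j => (P j).eval (v i)).det = α * (Matrix.vandermonde v).det := by
  refine ⟨∏ i, (P i).leadingCoeff, Finset.prod_pos (fun i _ => hl i), ?_⟩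
  rw [Matrix.det_eval_matrixOfPolynomials_eq_det_vandermonde v
    (fun i => C ((P i).leadingCoeff⁻¹) * P i) (fun i => by
      rw [natDegree_C_mul (inv_ne_zero (hl i).ne'), hd])
    (fun i => by
      rw [Monic, leadingCoeff_mul, leadingCoeff_C, inv_mul_cancel₀ (hl i).ne'])]
  rw [← Matrix.det_mul_row]
  congr 1
  ext i j
  simp only [Matrix.of_apply, eval_mul, eval_C]
  rw [← mul_assoc, mul_inv_cancel₀ (hl j).ne', one_mul]

variable {p : ℕ} [Fact p.Prime]

lemma ch_m1 (h4 : p % 4 = 3) : ch p (-1) = -1 := by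
  rw [ch, quadraticChar_neg_one_iff_not_isSquare, ZMod.exists_sq_eq_neg_one_iff]
  omega

lemma det_cast {m : Type*} [Fintype m] [DecidableEq m] (M : Matrix m m ℤ) :
    (M.map (Int.cast : ℤ → ℝ)).det = (M.det : ℝ) := by
  have h := (Int.castRingHom ℝ).map_det M
  exact h.symm

/-- the nodes -/
noncomputable def ang (p n : ℕ) (t : Fin n) : ℝ := 2 * Real.pi * ((t : ℕ) + 1) / p

lemma ang_pos {n : ℕ} (hp : p = 2 * n + 1) (t : Fin n) : 0 < ang p n t := by
  have : (0 : ℝ) < p := by exact_mod_cast (Fact.out : p.Prime).pos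
  unfold ang
  have := Real.pi_pos
  positivity

lemma ang_lt {n : ℕ} (hp : p = 2 * n + 1) (t : Fin n) : ang p n t < Real.pi := by
  have h0 : (0 : ℝ) < p := by exact_mod_cast (Fact.out : p.Prime).pos
  unfold ang
  rw [div_lt_iff₀ h0]
  have ht : 2 * ((t : ℕ) + 1 : ℝ) < p := by
    have := t.2
    have h2 : 2 * ((t : ℕ) + 1) < p := by omega
    exact_mod_cast h2
  nlinarith [Real.pi_pos]

lemma std_eq {n : ℕ} (hp : p = 2 * n + 1) (k : ℤ) (t : Fin n) :
    (ZMod.stdAddChar (N := p)) ((k : ZMod p) * ix p n t)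
      = (Real.cos (k * ang p n t) : ℂ) + (Real.sin (k * ang p n t) : ℂ) * Complex.I := by
  have h1 : (k : ZMod p) * ix p n t = ((k * ((t : ℕ) + 1) : ℤ) : ZMod p) := by
    rw [ix]; push_cast; ring
  rw [h1, ZMod.stdAddChar_coe]
  rw [Complex.ofReal_cos, Complex.ofReal_sin, ← Complex.exp_mul_I]
  congr 1
  unfold ang
  push_cast
  ring

lemma sum_cos {n : ℕ} (hp : p = 2 * n + 1) (t : Fin n) :
    ∑ k : Fin n, Real.cos (((k : ℕ) + 1 : ℝ) * ang p n t) = - 1 / 2 := by
  have h := AddChar.sum_mulShift (R' := ℂ) (ix p n t) (ZMod.isPrimitive_stdAddChar p)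
  rw [if_neg (ix_ne hp t)] at h
  rw [sum_fold hp] at h
  have h1 := congrArg Complex.re h
  rw [zero_mul, AddChar.map_zero_eq_one, Complex.add_re, Complex.re_sum] at h1
  have h2 : ∀ k : Fin n, ((ZMod.stdAddChar (N := p)) (ix p n k * ix p n t)
      + (ZMod.stdAddChar (N := p)) (-ix p n k * ix p n t)).re
      = 2 * Real.cos (((k : ℕ) + 1 : ℝ) * ang p n t) := by
    intro k
    have e1 : ix p n k = ((((k : ℕ) + 1 : ℤ)) : ZMod p) := by rw [ix]; push_cast; rfl
    have e2 : -ix p n k = ((-((k : ℕ) + 1 : ℤ) : ℤ) : ZMod p) := by rw [ix]; push_cast; rfl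
    rw [e2, e1, std_eq hp, std_eq hp, Complex.add_re]
    have e3 : ∀ x y : ℝ, ((x : ℂ) + (y : ℂ) * Complex.I).re = x := by intro x y; simp
    rw [e3, e3]
    push_cast
    rw [neg_mul, Real.cos_neg]
    ring
  rw [Finset.sum_congr rfl (fun k _ => h2 k), ← Finset.mul_sum] at h1
  simp only [Complex.one_re, Nat.cast_zero, Complex.zero_re] at h1
  linarith

/-- sines -/
noncomputable def Sn (p n : ℕ) : Matrix (Fin n) (Fin n) ℝ :=
  Matrix.of fun t k => Real.sin (((k : ℕ) + 1 : ℝ) * ang p n t)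

/-- cosines -/
noncomputable def Cs (p n : ℕ) : Matrix (Fin n) (Fin n) ℝ :=
  Matrix.of fun t k => Real.cos (((k : ℕ) + 1 : ℝ) * ang p n t)

lemma det_Sn {n : ℕ} (hp : p = 2 * n + 1) : ∃ α : ℝ, 0 < α ∧
    (Sn p n).det = α * (Matrix.vandermonde fun t => Real.cos (ang p n t)).det := by
  obtain ⟨α, hα, h⟩ := sgn_vdm (fun t => Real.cos (ang p n t))
    (fun i : Fin n => Chebyshev.U ℝ ((i : ℕ) : ℤ)) (fun i => Chebyshev.natDegree_U_natCast ℝ i)
    (fun i => by rw [Chebyshev.leadingCoeff_U_natCast]; positivity)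
  refine ⟨(∏ t, Real.sin (ang p n t)) * α, mul_pos (Finset.prod_pos fun t _ =>
    Real.sin_pos_of_pos_of_lt_pi (ang_pos hp t) (ang_lt hp t)) hα, ?_⟩
  rw [mul_assoc, ← h, ← Matrix.det_mul_column]
  congr 1
  ext t k
  rw [Matrix.of_apply, Sn, Matrix.of_apply, Matrix.of_apply, mul_comm (Real.sin (ang p n t)),
    Chebyshev.U_real_cos]
  push_cast
  rfl

lemma det_Cs {n : ℕ} (hp : p = 2 * n + 1) (hodd : Odd n) : ∃ α : ℝ, 0 < α ∧
    (Cs p n).det = - (α * (Matrix.vandermonde fun t => Real.cos (ang p n t)).det) := by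
  obtain ⟨α, hα, h⟩ := sgn_vdm (fun t => Real.cos (ang p n t))
    (fun i : Fin n => Chebyshev.T ℝ ((i : ℕ) : ℤ)) (fun i => by
      rw [Chebyshev.natDegree_T]; simp)
    (fun i => by rw [Chebyshev.leadingCoeff_T]; positivity)
  refine ⟨α / 2, by positivity, ?_⟩
  obtain ⟨m, rfl⟩ : ∃ m, n = m + 1 := ⟨n - 1, by rcases hodd with ⟨k, hk⟩; omega⟩
  have hrot : ((Cs p (m + 1)).submatrix id (finRotate (m + 1)).symm).det = (Cs p (m + 1)).det := by
    rw [Matrix.det_permute', Equiv.Perm.sign_symm, sign_finRotate]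
    have : Even m := by
      rcases hodd with ⟨k, hk⟩
      exact ⟨k, by omega⟩
    rw [Nat.add_sub_cancel, this.neg_one_pow]
    simp
  rw [← hrot]
  have hupd : (Cs p (m + 1)).submatrix id (finRotate (m + 1)).symm =
      (Matrix.of fun i j : Fin (m + 1) => (Chebyshev.T ℝ ((j : ℕ) : ℤ)).eval
        (Real.cos (ang p (m + 1) i))).updateCol 0 (fun k => ∑ i : Fin (m + 1),
          (if i = 0 then (-1 / 2 : ℝ) else -1) •
          (Matrix.of fun i j : Fin (m + 1) => (Chebyshev.T ℝ ((j : ℕ) : ℤ)).eval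
            (Real.cos (ang p (m + 1) i))) k i) := by
    have hT : ∀ (k : ℕ) (i : Fin (m + 1)), (Chebyshev.T ℝ ((k : ℕ) : ℤ)).eval
        (Real.cos (ang p (m + 1) i)) = Real.cos (k * ang p (m + 1) i) := by
      intro k i
      rw [Chebyshev.T_real_cos]
      push_cast
      rfl
    ext i j
    rw [Matrix.submatrix_apply, id]
    refine Fin.cases ?_ (fun j => ?_) j
    · rw [Matrix.updateCol_self]
      have e : (finRotate (m + 1)).symm 0 = Fin.last m := by
        rw [Equiv.symm_apply_eq, finRotate_last]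
      rw [e, Cs, Matrix.of_apply, Fin.sum_univ_succ]
      simp only [if_pos, Matrix.of_apply, Fin.succ_ne_zero, if_false, smul_eq_mul, hT]
      have h1 := sum_cos hp i
      rw [Fin.sum_univ_castSucc] at h1
      simp only [Fin.val_castSucc, Fin.val_last, Fin.val_succ, Fin.val_zero] at h1 ⊢
      rw [← Finset.mul_sum]
      push_cast
      rw [zero_mul, Real.cos_zero]
      linarith
    · rw [Matrix.updateCol_ne (Fin.succ_ne_zero j)]
      have e : (finRotate (m + 1)).symm j.succ = j.castSucc := by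
        rw [Equiv.symm_apply_eq]
        rw [finRotate_apply]
        exact (Fin.coeSucc_eq_succ).symm
      rw [e, Cs, Matrix.of_apply, Matrix.of_apply, hT]
      simp
  rw [hupd, Matrix.det_updateCol_sum, if_pos rfl, h, smul_eq_mul]
  ring

/-- factorisation of the matrix of the sums -/
lemma SS_fact {n : ℕ} (hp : p = 2 * n + 1) (h4 : p % 4 = 3) :
    (SS p n).map (Int.cast : ℤ → ℝ) = (4 / Real.sqrt p) • ((Sn p n)ᵀ
      * Matrix.diagonal (fun t => (bb p n t : ℝ)) * Cs p n) := by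
  have hp0 : (0 : ℝ) < p := by exact_mod_cast (Fact.out : p.Prime).pos
  have hq : Real.sqrt p ≠ 0 := (Real.sqrt_pos.2 hp0).ne'
  have hp2 : p ≠ 2 := by omega
  -- the Fourier expansion of the symbol
  have hF : ∀ m : ℤ, (ch p (m : ZMod p) : ℝ) * Real.sqrt p
      = 2 * ∑ t : Fin n, (bb p n t : ℝ) * Real.sin (m * ang p n t) := by
    intro m
    have h0 := CN.gauss_three (p := p) h4
    have h1 : ∑ t : ZMod p, (ch p t : ℂ) * (ZMod.stdAddChar (N := p)) ((m : ZMod p) * t)
        = (ch p (m : ZMod p) : ℂ) * ((Real.sqrt p : ℂ) * Complex.I) := by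
      by_cases hm : (m : ZMod p) = 0
      · rw [hm, ch_zero]
        simp only [zero_mul, AddChar.map_zero_eq_one, mul_one]
        rw [← Int.cast_sum, sum_ch hp2]
        simp
      · rw [← h0, gaussSum]
        have h2 : ∑ a : ZMod p, Pool.Agent.Helper184.Chapman.chi p ℂ a * (ZMod.stdAddChar (N := p)) a
            = ∑ t : ZMod p, Pool.Agent.Helper184.Chapman.chi p ℂ ((m : ZMod p) * t)
              * (ZMod.stdAddChar (N := p)) ((m : ZMod p) * t) :=
          (Fintype.sum_bijective (fun t => (m : ZMod p) * t) (mulLeft_bijective₀ _ hm) _ _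
            (fun t => rfl)).symm
        rw [h2, Finset.mul_sum]
        apply Finset.sum_congr rfl
        intro t _
        have h3 : ∀ a : ZMod p, Pool.Agent.Helper184.Chapman.chi p ℂ a = (ch p a : ℂ) := fun a => rfl
        rw [h3, ch_mul]
        push_cast
        have h4 : (ch p (m : ZMod p) : ℂ) * (ch p (m : ZMod p) : ℂ) = 1 := by
          exact_mod_cast congrArg (Int.cast : ℤ → ℂ) (ch_sq hm)
        linear_combination (-(ch p t : ℂ) * (ZMod.stdAddChar (N := p)) ((m : ZMod p) * t)) * h4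
    rw [sum_fold hp] at h1
    have h5 := congrArg Complex.im h1
    rw [ch_zero] at h5
    simp only [Int.cast_zero, zero_mul, zero_add] at h5
    rw [Complex.im_sum] at h5
    have h6 : ∀ k : Fin n, (((ch p (ix p n k) : ℤ) : ℂ) * (ZMod.stdAddChar (N := p)) ((m : ZMod p) * ix p n k)
        + ((ch p (-ix p n k) : ℤ) : ℂ) * (ZMod.stdAddChar (N := p)) ((m : ZMod p) * -ix p n k)).im
        = 2 * ((bb p n k : ℝ) * Real.sin (m * ang p n k)) := by
      intro k
      have hneg : ch p (-ix p n k) = - ch p (ix p n k) := by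
        rw [ch_neg', ch_m1 h4]; ring
      have e2 : (m : ZMod p) * -ix p n k = ((-m : ℤ) : ZMod p) * ix p n k := by push_cast; ring
      rw [e2, hneg, std_eq hp, std_eq hp]
      have e3 : ∀ (c : ℤ) (x y : ℝ), ((c : ℂ) * ((x : ℂ) + (y : ℂ) * Complex.I)).im = c * y := by
        intro c x y; simp
      have e4 : Real.sin (((-m : ℤ) : ℝ) * ang p n k) = - Real.sin (m * ang p n k) := by
        rw [← Real.sin_neg]; push_cast; ring_nf
      rw [Complex.add_im, e3, e3, e4]
      push_cast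
      unfold bb
      ring
    rw [Finset.sum_congr rfl (fun k _ => h6 k), ← Finset.mul_sum] at h5
    rw [h5]
    simp
  ext j k
  rw [Matrix.map_apply, Matrix.smul_apply, Matrix.mul_apply, smul_eq_mul]
  have h1 : ∀ t, ((Sn p n)ᵀ * Matrix.diagonal (fun t => (bb p n t : ℝ))) j t * Cs p n t k
      = (bb p n t : ℝ) * (Real.sin (((j : ℕ) + 1 : ℝ) * ang p n t) * Real.cos (((k : ℕ) + 1 : ℝ) * ang p n t)) := by
    intro t
    rw [Matrix.mul_diagonal, Matrix.transpose_apply, Sn, Cs, Matrix.of_apply, Matrix.of_apply]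
    ring
  rw [Finset.sum_congr rfl (fun t _ => h1 t)]
  have e1 : ix p n j + ix p n k = ((((j : ℕ) + 1) + ((k : ℕ) + 1) : ℤ) : ZMod p) := by
    rw [ix, ix]; push_cast; ring
  have e2 : ix p n j - ix p n k = ((((j : ℕ) + 1) - ((k : ℕ) + 1) : ℤ) : ZMod p) := by
    rw [ix, ix]; push_cast; ring
  have h2 := hF (((j : ℕ) + 1) + ((k : ℕ) + 1))
  have h3 := hF (((j : ℕ) + 1) - ((k : ℕ) + 1))
  rw [← e1] at h2
  rw [← e2] at h3
  rw [SS, Matrix.of_apply]
  push_cast at h2 h3 ⊢
  have h4 : ∀ t, (bb p n t : ℝ) * Real.sin (((j : ℕ) + 1 + ((k : ℕ) + 1) : ℝ) * ang p n t)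
      + (bb p n t : ℝ) * Real.sin (((j : ℕ) + 1 - ((k : ℕ) + 1) : ℝ) * ang p n t)
      = 2 * ((bb p n t : ℝ) * (Real.sin (((j : ℕ) + 1 : ℝ) * ang p n t) * Real.cos (((k : ℕ) + 1 : ℝ) * ang p n t))) := by
    intro t
    rw [add_mul, sub_mul, Real.sin_add, Real.sin_sub]
    ring
  have h5 : ∑ t, (bb p n t : ℝ) * Real.sin (((j : ℕ) + 1 + ((k : ℕ) + 1) : ℝ) * ang p n t)
      + ∑ t, (bb p n t : ℝ) * Real.sin (((j : ℕ) + 1 - ((k : ℕ) + 1) : ℝ) * ang p n t)
      = 2 * ∑ t, (bb p n t : ℝ) * (Real.sin (((j : ℕ) + 1 : ℝ) * ang p n t) * Real.cos (((k : ℕ) + 1 : ℝ) * ang p n t)) := by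
    rw [← Finset.sum_add_distrib, Finset.mul_sum]
    exact Finset.sum_congr rfl (fun t _ => h4 t)
  rw [div_mul_eq_mul_div, eq_div_iff hq]
  linear_combination h2 + h3 + 2 * h5

/-- the determinant of the matrix of the sums of symbols -/
theorem det_SS_three {n : ℕ} (hp : p = 2 * n + 1) (h4 : p % 4 = 3) :
    (SS p n).det = - (∏ t, bb p n t) * (p : ℤ) ^ ((n - 1) / 2) := by
  have hp0 : (0 : ℝ) < p := by exact_mod_cast (Fact.out : p.Prime).pos
  have hodd : Odd n := by
    rw [Nat.odd_iff]; omega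
  -- the square
  have hpn : (p : ℝ) = 2 * n + 1 := by exact_mod_cast hp
  have hsqR : (p : ℝ) * (((SS p n).det : ℤ) : ℝ) ^ 2 = (p : ℝ) * (p : ℝ) ^ (n - 1) := by
    have h1 : (SS p n).det ^ 2 = (SS p n * (SS p n)ᵀ).det := by
      rw [Matrix.det_mul, Matrix.det_transpose, sq]
    have h2 : (((SS p n).det : ℤ) : ℝ) ^ 2 = (((SS p n * (SS p n)ᵀ).det : ℤ) : ℝ) := by
      rw [← h1, Int.cast_pow]
    rw [h2, ← det_cast]
    have h8 := det_two ((p : ℝ) • (1 : Matrix (Fin n) (Fin n) ℝ)) (fun j => -2 * (bb p n j : ℝ)) 0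
      (fun j => (bb p n j : ℝ)) 0 (fun j => -2 * (bb p n j : ℝ) / p) 0
      (fun j => by
        simp only [Matrix.smul_apply, Matrix.one_apply, smul_eq_mul, mul_ite, mul_one, mul_zero,
          ite_mul, zero_mul, Finset.sum_ite_eq, Finset.mem_univ, if_true]
        field_simp)
      (fun j => by simp)
      ((SS p n * (SS p n)ᵀ).map (Int.cast : ℤ → ℝ))
      (fun j k => by
        rw [Matrix.map_apply, SS_mul_tr hp, ch_m1 h4, Matrix.smul_apply, Matrix.one_apply]
        simp only [Pi.zero_apply, mul_zero, add_zero, smul_eq_mul]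
        split_ifs <;> push_cast <;> ring)
    rw [h8, Matrix.det_smul, Matrix.det_one, Fintype.card_fin]
    have hS : ∑ j, (bb p n j : ℝ) * (-2 * bb p n j / p) = -2 * n / p := by
      have : ∀ j : Fin n, (bb p n j : ℝ) * (-2 * bb p n j / p) = -2 / p := by
        intro j
        have := congrArg (Int.cast : ℤ → ℝ) (bb_sq hp j)
        push_cast at this
        linear_combination (-2 / p : ℝ) * this
      rw [Finset.sum_congr rfl (fun j _ => this j)]
      simp
      ring
    rw [hS]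
    simp only [Pi.zero_apply, mul_zero, zero_mul, Finset.sum_const_zero, add_zero, mul_one, sub_zero]
    have : (p : ℝ) * ((p : ℝ) ^ n * (1 + -2 * n / p)) = (p : ℝ) ^ n * (p - 2 * n) := by
      field_simp
      ring
    rw [this]
    have e : (p : ℝ) - 2 * n = 1 := by rw [hpn]; ring
    rw [e, mul_one, ← pow_succ']
    congr 1
    rcases hodd with ⟨k, hk⟩
    omega
  have hsq : (SS p n).det ^ 2 = (p : ℤ) ^ (n - 1) := by
    have := mul_left_cancel₀ hp0.ne' hsqR
    exact_mod_cast this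
  have hcase : (SS p n).det = (p : ℤ) ^ ((n - 1) / 2) ∨ (SS p n).det = - (p : ℤ) ^ ((n - 1) / 2) := by
    rw [← sq_eq_sq_iff_eq_or_eq_neg, hsq, ← pow_mul]
    congr 1
    rcases hodd with ⟨k, hk⟩
    omega
  -- the sign
  have hfac := congrArg Matrix.det (SS_fact hp h4)
  rw [Matrix.det_smul, Matrix.det_mul, Matrix.det_mul, Matrix.det_diagonal, Matrix.det_transpose] at hfac
  obtain ⟨α, hα, h5⟩ := det_Sn hp
  obtain ⟨β, hβ, h6⟩ := det_Cs hp hodd
  rw [h5, h6, det_cast] at hfac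
  set V := (Matrix.vandermonde fun t => Real.cos (ang p n t)).det with hV
  have hχ : (∏ t, bb p n t) = 1 ∨ (∏ t, bb p n t) = -1 := by
    have h7 : (∏ t, bb p n t) ^ 2 = 1 := by
      rw [← Finset.prod_pow]
      exact Finset.prod_eq_one (fun t _ => by rw [sq, bb_sq hp])
    have h8 : ((∏ t, bb p n t) - 1) * ((∏ t, bb p n t) + 1) = 0 := by linear_combination h7
    rcases mul_eq_zero.1 h8 with h | h
    · left; omega
    · right; omega
  have hq : 0 < Real.sqrt p := Real.sqrt_pos.2 hp0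
  have hpp : (0 : ℝ) < (p : ℝ) ^ ((n - 1) / 2) := by positivity
  have hc : 0 ≤ (4 / Real.sqrt p) ^ Fintype.card (Fin n) * (α * β * V ^ 2) := by positivity
  have hprod : (∏ t, (bb p n t : ℝ)) = ((∏ t, bb p n t : ℤ) : ℝ) := by push_cast; rfl
  rw [hprod] at hfac
  rcases hχ with h | h <;> rcases hcase with h' | h'
  · exfalso
    rw [h, h', Int.cast_pow, Int.cast_natCast, Int.cast_one] at hfac
    nlinarith
  · rw [h, h']; ring
  · rw [h, h']; ring
  · exfalso
    rw [h, h', Int.cast_neg, Int.cast_neg, Int.cast_pow, Int.cast_natCast, Int.cast_one] at hfac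
    nlinarith

end Pool.Agent.Q23.HS
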